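import Pool.Agent.Lib_MP_22d2c8_uni.StepDefs

/-!
# One compression step: correctness
-/

set_option autoImplicit false

namespace Pool.Agent.LowComplexity

/-- PROOF. The string `enc M n i a b` has length `M`; `blocks_eq`, `capN_bits`. -/
theorem dcd_enc (r M n i : ℕ) (a b : List Bool)
    (hM : ([Nat.bits n, Nat.bits i, a, b].flatMap block).length ≤ M)
    (hn : n ≤ M ^ r) (hi : i ≤ M ^ r) :
    (enc M n i a b).length = M ∧ dcd r (enc M n i a b) = word n i a b := by
  have h1 : (enc M n i a b).length = M := by
    unfold enc
    rw [List.length_append, List.length_replicate]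
    omega
  refine ⟨h1, ?_⟩
  have h2 : blocks (enc M n i a b) = [Nat.bits n, Nat.bits i, a, b] ++
      List.replicate (M - ([Nat.bits n, Nat.bits i, a, b].flatMap block).length) [] := by
    unfold enc
    exact blocks_eq _ _
  unfold dcd
  rw [h1, h2]
  simp only [List.cons_append, List.nil_append, List.getD_cons_zero, List.getD_cons_succ,
    capN_bits]
  rw [min_eq_right hn, min_eq_right hi]

private theorem stepeq_answers_length (Q : List Bool → Bool) (n i : ℕ) (a : List Bool) (s : ℕ) :
    (answers Q n i a s).length = s := by
  induction s with
  | zero => rfl
  | succ s ih => simp [answers, ih]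

/-- PROOF. The blocks of the second argument are given by `blocks_eq` (`k = 0`). By induction on `s ≤ t`
the `s`-th iterate is `answers Q n i a s` (`hQ`), then `hR`. The list of the bits is `w`. -/
theorem nextF_eq (V F : List Bool × List Bool → Bool) (e M n : ℕ) (Q R : List Bool → Bool)
    (a : List Bool) (t : ℕ) (w u v x : List Bool) (hx : x.length = n) (hw : w.length ≤ n ^ e)
    (hwR : ∀ (i : ℕ) (h : i < w.length), w[i] = R (word n i a (answers Q n i a t)))
    (hQ : ∀ i b, i < w.length → b.length ≤ t → F (enc M n i a b, u) = Q (word n i a b))
    (hR : ∀ i b, i < w.length → b.length ≤ t → F (enc M n i a b, v) = R (word n i a b)) :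
    nextF V F e (x, [a, List.replicate t true, List.replicate M true, Nat.bits w.length, u,
      v].flatMap block) = V (x, w) := by
  have hb : blocks ([a, List.replicate t true, List.replicate M true, Nat.bits w.length, u,
      v].flatMap block) = [a, List.replicate t true, List.replicate M true, Nat.bits w.length, u,
      v] := by
    have h := blocks_eq [a, List.replicate t true, List.replicate M true, Nat.bits w.length, u, v] 0
    simpa only [List.replicate_zero, List.append_nil] using h
  have hit : ∀ i, i < w.length → ∀ s, s ≤ t →
      (fun b => b ++ [F (enc M n i a b, u)])^[s] [] = answers Q n i a s := by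
    intro i hi s
    induction s with
    | zero => intro _; rfl
    | succ s ih =>
      intro hs
      rw [Function.iterate_succ_apply', ih (by omega)]
      simp only [answers]
      rw [hQ i _ hi (by rw [stepeq_answers_length]; omega)]
  unfold nextF
  simp only [hb, List.getD_cons_zero, List.getD_cons_succ, List.length_replicate, capN_bits, hx]
  rw [min_eq_right hw]
  congr 2
  apply List.ext_getElem
  · simp
  · intro i h1 h2
    rw [List.getElem_map, List.getElem_range, hit i h2 t le_rfl,
      hR i _ h2 (by rw [stepeq_answers_length]), hwR i h2]

end Pool.Agent.LowComplexity
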