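import Pool.Agent.Lib_MP_22d2c8_uni.StepFP
import Pool.Agent.Lib_MP_22d2c8_uni.StepEq

/-!
# Blocks followed by an arbitrary string; the list of the described bits
-/

set_option autoImplicit false

namespace Pool.Agent.LowComplexity

open Pool.Agent.PartSep Pool.Agent.PartSep.TM Pool.Agent.PartSep.TM.Rep

set_option synthInstance.maxSize 2000

private theorem bits_split_acc (B : List Sym) : ∀ (s : Bool) (cur : List Sym) (acc : List (List Sym)),
    B.foldl (fun s a => splitStep a s) (s, (cur, acc)) =
      ((B.foldl (fun s a => splitStep a s) (s, (cur, []))).1,
        ((B.foldl (fun s a => splitStep a s) (s, (cur, []))).2.1,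
          (B.foldl (fun s a => splitStep a s) (s, (cur, []))).2.2 ++ acc)) := by
  induction B with
  | nil => intro s cur acc; rfl
  | cons x B ih =>
    intro s cur acc
    simp only [List.foldl_cons]
    cases s
    · by_cases hx : x = Sym.i
      · have h1 : ∀ acc : List (List Sym), splitStep x (false, (cur, acc)) = (true, (cur, acc)) := by
          intro acc; simp [splitStep, hx]
        rw [h1, h1]
        exact ih true cur acc
      · have h1 : ∀ acc : List (List Sym), splitStep x (false, (cur, acc)) =
            (false, ([], cur.reverse :: acc)) := by
          intro acc; simp [splitStep, hx]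
        rw [h1, h1, ih false [] (cur.reverse :: acc), ih false [] [cur.reverse]]
        simp
    · have h1 : ∀ acc : List (List Sym), splitStep x (true, (cur, acc)) =
          (false, (x :: cur, acc)) := by
        intro acc; simp [splitStep]
      rw [h1, h1]
      exact ih false (x :: cur) acc

private theorem bits_split_append (l : List (List Sym)) (B : List Sym) :
    splitB (l.flatMap del ++ B) = l ++ splitB B := by
  have key : ∀ (l acc : List (List Sym)),
      (l.flatMap del).foldl (fun s a => splitStep a s) (false, ([], acc)) =
        (false, ([], l.reverse ++ acc)) := by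
    intro l
    induction l with
    | nil => intro acc; rfl
    | cons w l ih =>
      intro acc
      rw [List.flatMap_cons, List.foldl_append, split_del, ih]
      simp
  unfold splitB
  rw [List.foldl_append, key, bits_split_acc]
  simp

theorem blocks_append (l : List (List Bool)) (w : List Bool) :
    blocks (l.flatMap block ++ w) = l ++ blocks w := by
  have h1 : (l.flatMap block).map bs = (l.map (fun w => w.map bs)).flatMap del := by
    induction l with
    | nil => rfl
    | cons a l ih =>
      have h2 : (block a).map bs = del (a.map bs) := by
        unfold block del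
        rw [List.map_append, List.flatMap_map]
        congr 1
        induction a with
        | nil => rfl
        | cons b a ih =>
          rw [List.flatMap_cons, List.map_append, ih, List.flatMap_cons]
          rfl
      rw [List.flatMap_cons, List.map_append, ih, h2, List.map_cons, List.flatMap_cons]
  unfold blocks
  rw [List.map_append, h1, bits_split_append, List.map_append, List.map_map]
  congr 1
  have h : ((fun u : List Sym => u.map sb) ∘ fun w : List Bool => w.map bs) = id := by
    funext w
    show (w.map bs).map sb = w
    exact Pool.Agent.PartSep.CL.map_sb_bs w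
  rw [h, List.map_id]

theorem length_block (a : List Bool) : (block a).length = 2 * a.length + 1 := by
  unfold block
  induction a with
  | nil => rfl
  | cons b a ih =>
    simp only [List.flatMap_cons, List.length_append, List.length_cons, List.length_nil] at ih ⊢
    omega

/-- the last bits of `y`; their number is given by block number `k` -/
def lastN (k : ℕ) (y : List Bool) : List Bool :=
  y.drop (y.length - capN y.length ((blocks y).getD k []))

theorem lastN_eq (k : ℕ) (l : List (List Bool)) (r z : List Bool) (hk : k < l.length)
    (hl : l.getD k [] = Nat.bits z.length) : lastN k (l.flatMap block ++ (r ++ z)) = z := by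
  unfold lastN
  have h1 : (blocks (l.flatMap block ++ (r ++ z))).getD k [] = Nat.bits z.length := by
    rw [blocks_append, List.getD_append _ _ _ _ hk, hl]
  rw [h1, capN_bits]
  have h2 : (l.flatMap block ++ (r ++ z)).length = (l.flatMap block ++ r).length + z.length := by
    simp only [List.length_append]; omega
  rw [h2, min_eq_right (Nat.le_add_left _ _), Nat.add_sub_cancel, ← List.append_assoc,
    List.drop_left']
  rfl

theorem FP_lastN {E : Type} [Rep E] {f : E → List Bool} (hf : FP f) (k : ℕ) :
    FP (fun x => lastN k (f x)) := by
  unfold lastN
  have h1 : FP (fun x => (blocks (f x)).getD k []) :=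
    (FP.getE (FP_blocks hf) (FP.const k) []).congr (fun x => by rw [List.getD_eq_getElem?_getD])
  exact FP.dropE hf (FP.sub (FP.lengthE hf) (FP_capN (FP.lengthE hf) h1))

/-- the list of the described bits (compare `nextF`) -/
def bitsOf (F : List Bool × List Bool → Bool) (e : ℕ) (p : List Bool × List Bool) : List Bool :=
  (List.range (capN (p.1.length ^ e) ((blocks p.2).getD 3 []))).map (fun i =>
    F (enc ((blocks p.2).getD 2 []).length p.1.length i ((blocks p.2).getD 0 [])
      ((fun b => b ++ [F (enc ((blocks p.2).getD 2 []).length p.1.length i
        ((blocks p.2).getD 0 []) b, (blocks p.2).getD 4 [])])^[((blocks p.2).getD 1 []).length] []),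
      (blocks p.2).getD 5 []))

private theorem bits_blk {E : Type} [Rep E] {f : E → List Bool} (hf : FP f) (k : ℕ) :
    FP (fun x => (blocks (f x)).getD k []) :=
  (FP.getE (FP_blocks hf) (FP.const k) []).congr (fun x => by
    rw [List.getD_eq_getElem?_getD])

theorem FP_bitsOf {F : List Bool × List Bool → Bool} (hF : FP F) (e : ℕ) :
    FP (bitsOf F e) := by
  -- components, as functions of the state `((p, i), b)`
  have k1 : FP (fun z : ((List Bool × List Bool) × ℕ) × List Bool => z.1.1.1) :=
    FP.comp FP.fst (FP.comp FP.fst FP.fst)
  have k2 : FP (fun z : ((List Bool × List Bool) × ℕ) × List Bool => z.1.1.2) :=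
    FP.comp FP.snd (FP.comp FP.fst FP.fst)
  have k3 : FP (fun z : ((List Bool × List Bool) × ℕ) × List Bool => z.1.2) :=
    FP.comp FP.snd FP.fst
  have hstep : FP (fun z : ((List Bool × List Bool) × ℕ) × List Bool =>
      z.2 ++ [F (enc ((blocks z.1.1.2).getD 2 []).length z.1.1.1.length z.1.2
        ((blocks z.1.1.2).getD 0 []) z.2, (blocks z.1.1.2).getD 4 [])]) :=
    FP.appendE FP.snd (FP.consE (FP.comp hF (FP.pair
      (FP_enc (FP.lengthE (bits_blk k2 2)) (FP.lengthE k1) k3 (bits_blk k2 0) FP.snd)
      (bits_blk k2 4))) (FP.const []))
  have j1 : FP (fun y : (List Bool × List Bool) × ℕ => y.1.1) := FP.comp FP.fst FP.fst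
  have j2 : FP (fun y : (List Bool × List Bool) × ℕ => y.1.2) := FP.comp FP.snd FP.fst
  have hit := FP.natRec_growth (E := (List Bool × List Bool) × ℕ) (F := List Bool)
    (n := fun y => ((blocks y.1.2).getD 1 []).length) (FP.lengthE (bits_blk j2 1))
    (init := fun _ => []) (FP.const []) (step := fun z =>
      z.2 ++ [F (enc ((blocks z.1.1.2).getD 2 []).length z.1.1.1.length z.1.2
        ((blocks z.1.1.2).getD 0 []) z.2, (blocks z.1.1.2).getD 4 [])]) hstep 4 (by
      intro x s
      simp only [size_append, size_cons, size_nilE, Polynomial.eval_ofNat]
      have h1 := size_bool (F (enc ((blocks x.1.2).getD 2 []).length x.1.1.length x.2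
        ((blocks x.1.2).getD 0 []) s, (blocks x.1.2).getD 4 []))
      have h2 : Fintype.card (ix Bool) = 1 := rfl
      rw [h2]
      omega)
  have hg : FP (fun y : (List Bool × List Bool) × ℕ =>
      F (enc ((blocks y.1.2).getD 2 []).length y.1.1.length y.2 ((blocks y.1.2).getD 0 [])
        ((fun b => b ++ [F (enc ((blocks y.1.2).getD 2 []).length y.1.1.length y.2
          ((blocks y.1.2).getD 0 []) b, (blocks y.1.2).getD 4 [])])^[((blocks y.1.2).getD 1
            []).length] []),
      (blocks y.1.2).getD 5 [])) :=
    FP.comp hF (FP.pair (FP_enc (FP.lengthE (bits_blk j2 2)) (FP.lengthE j1) FP.snd (bits_blk j2 0)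
      hit) (bits_blk j2 5))
  have hlen : FP (fun p : List Bool × List Bool => p.1.length ^ e) :=
    (FP.poly (FP.lengthE FP.fst) (Polynomial.X ^ e)).congr (fun x => by simp)
  have hr : FP (fun p : List Bool × List Bool =>
      List.range (capN (p.1.length ^ e) ((blocks p.2).getD 3 []))) :=
    FP.range (FP_capN hlen (bits_blk FP.snd 3))
  exact FP.mapE hr hg

private theorem bits_answers_length (Q : List Bool → Bool) (n i : ℕ) (a : List Bool) (s : ℕ) :
    (answers Q n i a s).length = s := by
  induction s with
  | zero => rfl
  | succ s ih => simp [answers, ih]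

theorem bitsOf_eq (F : List Bool × List Bool → Bool) (e M n : ℕ) (Q R : List Bool → Bool)
    (a : List Bool) (t : ℕ) (w u v x : List Bool) (l' : List (List Bool)) (z : List Bool)
    (hx : x.length = n) (hw : w.length ≤ n ^ e)
    (hwR : ∀ (i : ℕ) (h : i < w.length), w[i] = R (word n i a (answers Q n i a t)))
    (hQ : ∀ i b, i < w.length → b.length ≤ t → F (enc M n i a b, u) = Q (word n i a b))
    (hR : ∀ i b, i < w.length → b.length ≤ t → F (enc M n i a b, v) = R (word n i a b)) :
    bitsOf F e (x, ([a, List.replicate t true, List.replicate M true, Nat.bits w.length, u,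
      v] ++ l').flatMap block ++ z) = w := by
  have hb : blocks (([a, List.replicate t true, List.replicate M true, Nat.bits w.length, u,
      v] ++ l').flatMap block ++ z) = a :: List.replicate t true :: List.replicate M true ::
        Nat.bits w.length :: u :: v :: (l' ++ blocks z) := by
    rw [blocks_append]
    rfl
  have hit : ∀ i, i < w.length → ∀ s, s ≤ t →
      (fun b => b ++ [F (enc M n i a b, u)])^[s] [] = answers Q n i a s := by
    intro i hi s
    induction s with
    | zero => intro _; rfl
    | succ s ih =>
      intro hs
      rw [Function.iterate_succ_apply', ih (by omega)]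
      simp only [answers]
      rw [hQ i _ hi (by rw [bits_answers_length]; omega)]
  unfold bitsOf
  simp only [hb, List.getD_cons_zero, List.getD_cons_succ, List.length_replicate, capN_bits, hx]
  rw [min_eq_right hw]
  apply List.ext_getElem
  · simp
  · intro i h1 h2
    rw [List.getElem_map, List.getElem_range, hit i h2 t le_rfl,
      hR i _ h2 (by rw [bits_answers_length]), hwR i h2]

end Pool.Agent.LowComplexity
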