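import Pool.Agent.Lib_MP_22d2c8_uni.Defs
import Pool.Agent.Lib_MP_42fe4d_lc.CL.CookLevin

/-!
# Blocks as polynomial time functions

`FP` is the class of polynomial time functions of `Lib_MP_42fe4d_lc/TM` (between types with a
`Rep`); `List Bool` carries the instance `Rep (List E)` with `E = Bool`.
-/

set_option autoImplicit false

namespace Pool.Agent.LowComplexity

open Pool.Agent.PartSep Pool.Agent.PartSep.TM Pool.Agent.PartSep.TM.Rep

set_option synthInstance.maxSize 2000

variable {E F : Type} [Rep E] [Rep F]

private theorem blk_mapSym {s : E → List Sym} (hs : FP s) (h : Sym → F) :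
    FP (fun x => (s x).map h) := by
  have : Inhabited F := ⟨h Sym.i⟩
  have h1 := FP.foldl_growth hs (init := fun _ => ([] : List F)) (FP.const _)
    (step := fun a y => h a :: y.2) (fun a => FP.consE (FP.const _) FP.snd)
    (Polynomial.C (1 + Fintype.card (ix F) + 2 * ∑ a, size (h a))) (by
      intro a x s
      simp only [size_cons, Polynomial.eval_C]
      have : size (h a) ≤ ∑ a, size (h a) :=
        Finset.single_le_sum (f := fun a => size (h a)) (fun _ _ => Nat.zero_le _)
          (Finset.mem_univ a)
      omega)
  refine (FP.reverseE h1).congr (fun x => ?_)
  have key : ∀ (l : List Sym) (s : List F), (List.foldl (fun s a => h a :: s) s l).reverse =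
      s.reverse ++ l.map h := by
    intro l
    induction l with
    | nil => simp
    | cons a l ih => intro s; rw [List.foldl_cons, ih]; simp
  simpa using key (s x) []

private theorem blk_map_bs {f : E → List Bool} (hf : FP f) : FP (fun x => (f x).map bs) := by
  have h := FP.flatMapS hf (g := fun y : E × Bool => if y.2 then [Sym.i] else [Sym.o])
    (FP.ite FP.snd (FP.const _) (FP.const _))
  refine h.congr (fun x => ?_)
  simp only
  induction f x with
  | nil => rfl
  | cons a l ih =>
    rw [List.flatMap_cons, ih, List.map_cons]
    cases a <;> rfl

private theorem blk_block_map (w : List Bool) : (block w).map bs = del (w.map bs) := by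
  unfold block del
  rw [List.map_append, List.flatMap_map]
  congr 1
  induction w with
  | nil => rfl
  | cons a w ih =>
    rw [List.flatMap_cons, List.map_append, ih, List.flatMap_cons]
    rfl

private theorem blk_flat_map (l : List (List Bool)) :
    (l.flatMap block).map bs = (l.map (fun w => w.map bs)).flatMap del := by
  induction l with
  | nil => rfl
  | cons a l ih =>
    rw [List.flatMap_cons, List.map_append, ih, blk_block_map, List.map_cons, List.flatMap_cons]

private theorem blk_replicate (k : ℕ) :
    List.replicate k false = (List.replicate k ([] : List Bool)).flatMap block := by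
  induction k with
  | zero => rfl
  | succ k ih =>
    rw [List.replicate_succ, List.replicate_succ, List.flatMap_cons, ← ih]
    rfl

/-- the blocks of a string -/
def blocks (w : List Bool) : List (List Bool) := (splitB (w.map bs)).map (fun u => u.map sb)

/-- PROOF. `(block w).map bs = del (w.map bs)` (as `bs true = Sym.i`, `bs false = Sym.o`), in particular
`block [] = [false]`, so `replicate k false` is the concatenation of the codes of `k` empty strings;
then `splitB_flatMap` and `map_sb_bs`. -/
theorem blocks_eq (l : List (List Bool)) (k : ℕ) :
    blocks (l.flatMap block ++ List.replicate k false) = l ++ List.replicate k [] := by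
  unfold blocks
  rw [blk_replicate, ← List.flatMap_append, blk_flat_map, splitB_flatMap, List.map_map]
  have h : ((fun u : List Sym => u.map sb) ∘ fun w : List Bool => w.map bs) = id := by
    funext w
    show (w.map bs).map sb = w
    exact Pool.Agent.PartSep.CL.map_sb_bs w
  rw [h, List.map_id]

/-- PROOF. `FP.splitB`, `FP.flatMapS` (for `List Bool → List Sym`), `FP.mapE`, `fp_mapSym` or a
`foldl` (for `List Sym → List Bool`). -/
theorem FP_blocks {f : E → List Bool} (hf : FP f) : FP (fun x => blocks (f x)) := by
  unfold blocks
  exact FP.mapE (FP.splitB (blk_map_bs hf)) (g := fun y : E × List Sym => y.2.map sb)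
    (blk_mapSym FP.snd sb)

theorem FP_block {f : E → List Bool} (hf : FP f) : FP (fun x => block (f x)) := by
  unfold block
  exact FP.appendE (FP.flatMapE hf (g := fun y : E × Bool => [true, y.2])
    (FP.consE (FP.const _) (FP.consE FP.snd (FP.const _)))) (FP.const _)

theorem FP_replicate {f : E → ℕ} (hf : FP f) (b : Bool) :
    FP (fun x => List.replicate (f x) b) := by
  refine (blk_mapSym hf.unary (fun _ => b)).congr (fun x => ?_)
  rw [List.map_replicate]

end Pool.Agent.LowComplexity
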