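import Pool.Agent.Lib_MP_22d2c8_uni.Defs
import Pool.Agent.Lib_MP_42fe4d_lc.CL.Sim

/-!
# From `FP` to the classes of the prelude
-/

set_option autoImplicit false

namespace Pool.Agent.LowComplexity

open Pool.Agent.PartSep Pool.Agent.PartSep.TM Pool.Agent.PartSep.TM.Rep

set_option synthInstance.maxSize 2000

open Pool.Agent.PartSep.CL Pool.Agent.PartSep.CL.WM N487b59b3

/-- the list of bits of a string of symbols which codes it -/
private def bridgeDec (s : List Sym) : List Bool :=
  (splitB s).map (fun b => decide (b.head? = some Sym.i))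

private theorem fp_bridgeDec : FP bridgeDec :=
  FP.mapE (FP.splitB FP.id) (g := fun y : List Sym × List Sym => decide (y.2.head? = some Sym.i))
    (FP.headIs FP.snd Sym.i)

private theorem splitB_code (x : List Bool) :
    splitB ((bitEncode x).map bs) = x.map (fun b => [bs b]) := by
  rw [bitEncode_list]
  have h : x.flatMap (fun a => del ((bitEncode a).map bs)) =
      (x.map (fun b => [bs b])).flatMap del := by
    rw [List.flatMap_map]
    rfl
  rw [h, splitB_flatMap]

private theorem bridgeDec_code (x : List Bool) : bridgeDec ((bitEncode x).map bs) = x := by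
  unfold bridgeDec
  rw [splitB_code, List.map_map]
  have h : ((fun b : List Sym => decide (b.head? = some Sym.i)) ∘ fun b : Bool => [bs b]) = id := by
    funext b
    cases b <;> rfl
  rw [h, List.map_id]

private theorem fp_bs {E : Type} [Rep E] {b : E → Bool} (hb : FP b) :
    FP (fun x => [bs (b x)]) :=
  (FP.ite hb (FP.const [Sym.i]) (FP.const [Sym.o])).congr (fun x => by cases b x <;> rfl)

private theorem fp_mapbs {E : Type} [Rep E] {l : E → List Bool} (hl : FP l) :
    FP (fun x => (l x).map bs) :=
  (FP.flatMapS hl (g := fun y : E × Bool => [bs y.2]) (fp_bs FP.snd)).congr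
    (fun x => flatMap_single bs (l x))

private def bridgeBits (l : List Sym) : List Sym := l.flatMap (fun a => [Sym.i, a, Sym.o])

private theorem bridgeBits_map_bs (u : List Bool) :
    bridgeBits (u.map bs) = (bitEncode u).map bs := by
  rw [bitEncode_bits]
  unfold bridgeBits vw
  rw [List.flatMap_map, List.map_flatMap]
  rfl

private theorem isPoly_aux {f : List Bool → List Bool} {g : List Sym → List Sym} (hg : FP g)
    (h : ∀ x, g ((bitEncode x).map bs) = (f x).map bs) : N68a2faeb.IsPolyTime f := by
  refine FP.toTM2 (αΓ := Bool) (βΓ := Bool) bs sb bs sb_bs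
    (f := fun s => bridgeBits (g s)) (FP.subst hg _) (fun x => ?_)
  change bridgeBits (g ((bitEncode x).map bs)) = (bitEncode (f x)).map bs
  rw [h, bridgeBits_map_bs]

private theorem isPoly_bool {α : Type} [N487b59b3 α] {L : α → Bool} {g : List Sym → List Sym}
    (hg : FP g) (h : ∀ x : α, g ((bitEncode x).map bs) = [bs (L x)]) : N68a2faeb.IsPolyTime L := by
  refine FP.toTM2 (αΓ := Bool) (βΓ := Bool) bs sb bs sb_bs hg (fun x => ?_)
  exact h x

/-- PROOF. `splitB ((bitEncode x).map bs)` is the list of the strings `[bs b]`, see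
`CL/CookLevin.lean` and `isPolyTime_of_fp`, `mem_P_of_fp` in `CL/Hard.lean`. -/
theorem isPolyTime_of_FP {f : List Bool → List Bool} (hf : FP f) : N68a2faeb.IsPolyTime f := by
  refine isPoly_aux (g := fun s => (f (bridgeDec s)).map bs)
    (fp_mapbs (FP.comp hf fp_bridgeDec)) (fun x => ?_)
  simp only [bridgeDec_code]

/-- as before -/
theorem mem_P_of_FP {L : List Bool → Bool} (hL : FP L) : L ∈ N68a2faeb.P := by
  refine isPoly_bool (g := fun s => [bs (L (bridgeDec s))])
    (fp_bs (FP.comp hL fp_bridgeDec)) (fun x => ?_)
  simp only [bridgeDec_code]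

/-- PROOF. `FP.ofTM2` (`CL/Sim.lean`) for `L` and for `f`, composition, back as in `mem_P_of_FP`. -/
theorem closed_P : Closed N68a2faeb.P := by
  refine ⟨fun L hL => hL, fun L hL f hf => ?_⟩
  obtain ⟨gL, hgL, hL2⟩ := FP.ofTM2 hL
  obtain ⟨gf, hgf, hf2⟩ := FP.ofTM2 hf
  refine isPoly_bool (g := fun s => gL (gf s)) (FP.comp hgL hgf) (fun x => ?_)
  have h1 : gf ((bitEncode x).map bs) = (bitEncode (f x)).map bs := hf2 x
  have h2 : gL ((bitEncode (f x)).map bs) = [bs (L (f x))] := hL2 (f x)
  simp only [h1, h2]

private theorem splitB_pair (x w : List Bool) :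
    splitB ((bitEncode (x, w)).map bs) = (bitEncode x).map bs :: w.map (fun b => [bs b]) := by
  have h : (bitEncode (x, w)).map bs =
      ((bitEncode x).map bs :: w.map (fun b => [bs b])).flatMap del := by
    have hw : (bitEncode w).map bs = w.flatMap (fun a => del [bs a]) := bitEncode_list w
    rw [bitEncode_prod, List.flatMap_cons, List.flatMap_map]
    show del ((bitEncode x).map bs) ++ (bitEncode w).map bs = _
    rw [hw]
  rw [h, splitB_flatMap]

private theorem code_pair (x w : List Bool) :
    (bitEncode (x, w)).map bs =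
      del ((bitEncode x).map bs) ++ (w.map (fun b => [bs b])).flatMap del := by
  have hw : (bitEncode w).map bs = w.flatMap (fun a => del [bs a]) := bitEncode_list w
  rw [bitEncode_prod, List.flatMap_map]
  show del ((bitEncode x).map bs) ++ (bitEncode w).map bs = _
  rw [hw]

private theorem fp_flatDel {E : Type} [Rep E] {l : E → List (List Sym)} (hl : FP l) :
    FP (fun x => (l x).flatMap del) :=
  FP.flatMapS hl (g := fun y : E × List Sym => del y.2) (FP.del FP.snd)

/-- PROOF. For `L ∈ NP` with the relation `R` and the polynomial `p`, and a polynomial time `f`, use the relation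
`R (f x, w) && (w.length ≤ p (f x).length)` and a polynomial
bounding `p.eval (f x).length` in `x.length` (`FP.size_le`). Use `FP.ofTM2` (`CL/Sim.lean`) for `R` and `f`; the code of a pair is
`bitEncode_prod`. `P ⊆ NP`: ignore the witness. -/
theorem closed_NP : Closed N68a2faeb.NP := by
  refine ⟨fun L hL => ?_, fun L hL f hf => ?_⟩
  · obtain ⟨gL, hgL, hL2⟩ := FP.ofTM2 hL
    refine ⟨0, fun y => L y.1, ?_, fun x => ⟨fun h => ⟨[], by simp, h⟩, fun ⟨w, _, h⟩ => h⟩⟩
    have hfst : FP (fun s => (splitB s)[0]?.getD ([] : List Sym)) :=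
      FP.getE (FP.splitB FP.id) (FP.const 0) []
    refine isPoly_bool (g := fun s => gL ((splitB s)[0]?.getD [])) (FP.comp hgL hfst)
      (fun y => ?_)
    obtain ⟨x, w⟩ := y
    have h2 : gL ((bitEncode x).map bs) = [bs (L x)] := hL2 x
    simp only [splitB_pair, List.getElem?_cons_zero, Option.getD_some, h2]
  · obtain ⟨p, R, hR, hx⟩ := hL
    obtain ⟨gR, hgR, hR2⟩ := FP.ofTM2 hR
    obtain ⟨gf, hgf, hf2⟩ := FP.ofTM2 hf
    obtain ⟨r, hr⟩ := hgf.size_le
    have hf3 : ∀ x, gf ((bitEncode x).map bs) = (bitEncode (f x)).map bs := fun x => hf2 x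
    have hbound : ∀ x : List Bool, p.eval (f x).length ≤
        (p.comp (r.comp (3 * Polynomial.X))).eval x.length := by
      intro x
      rw [Polynomial.eval_comp, Polynomial.eval_comp, Polynomial.eval_mul, Polynomial.eval_X]
      have h3 : (3 : Polynomial ℕ).eval x.length = 3 := by
        exact Polynomial.eval_ofNat (n := 3) x.length
      rw [h3]
      apply poly_mono
      have h1 := hr ((bitEncode x).map bs)
      rw [hf3, size_list, size_list, List.length_map, List.length_map, bitEncode_bits,
        bitEncode_bits, length_vw, length_vw] at h1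
      omega
    refine ⟨p.comp (r.comp (3 * Polynomial.X)),
      fun y => R (f y.1, y.2) && decide (y.2.length ≤ p.eval (f y.1).length), ?_, ?_⟩
    · have hfst : FP (fun s => gf ((splitB s)[0]?.getD ([] : List Sym))) :=
        FP.comp hgf (FP.getE (FP.splitB FP.id) (FP.const 0) [])
      have hws : FP (fun s : List Sym => (splitB s).tail) := FP.tailE (FP.splitB FP.id)
      have hcode : FP (fun s : List Sym => del (gf ((splitB s)[0]?.getD ([] : List Sym))) ++
          ((splitB s).tail).flatMap del) :=
        FP.append (FP.del hfst) (fp_flatDel hws)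
      have hRs : FP (fun s : List Sym => decide ((gR (del (gf ((splitB s)[0]?.getD
          ([] : List Sym))) ++ ((splitB s).tail).flatMap del)).head? = some Sym.i)) :=
        FP.headIs (FP.comp hgR hcode) Sym.i
      have hlen : FP (fun s : List Sym => decide ((splitB s).tail.length ≤
          p.eval (splitB (gf ((splitB s)[0]?.getD ([] : List Sym)))).length)) :=
        FP.natLe (FP.lengthE hws) (FP.poly (FP.lengthE (FP.splitB hfst)) p)
      refine isPoly_bool (fp_bs (FP.and hRs hlen)) (fun y => ?_)
      obtain ⟨x, w⟩ := y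
      have h2 : gR ((bitEncode (f x, w)).map bs) = [bs (R (f x, w))] := hR2 (f x, w)
      rw [code_pair] at h2
      simp only [splitB_pair, List.getElem?_cons_zero, Option.getD_some, List.tail_cons, hf3, h2,
        splitB_code, List.length_map, List.head?_cons]
      congr 2
      cases R (f x, w) <;> simp [bs]
    · intro x
      show L (f x) = true ↔ _
      rw [hx]
      constructor
      · rintro ⟨w, hw, hRw⟩
        refine ⟨w, hw.trans (hbound x), ?_⟩
        simp only [hRw, hw, decide_true, Bool.and_self]
      · rintro ⟨w, hw, hRw⟩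
        rw [Bool.and_eq_true, decide_eq_true_eq] at hRw
        exact ⟨w, hRw.2, hRw.1⟩

end Pool.Agent.LowComplexity
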