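import Pool.Prelude.Def_H_3587d628

/-!
# MP_22d2c8_lc: circuits whose code has small complexity (definitions)

Boolean circuits over and, or, not; their codes as bit strings; codes which are computed, bit by
bit, from a short advice string with a small number of adaptive queries.
-/

set_option autoImplicit false

namespace Pool.Agent.LowComplexity

/-- A gate. The numbers are the numbers of its predecessors: with `n` inputs the vertices
`0, …, n - 1` are the inputs and `n, n + 1, …` are the gates, in their order. -/
inductive Gate
  | and (i j : ℕ)
  | or (i j : ℕ)
  | not (i : ℕ)

/-- The value of a gate, from the list `v` of the values of the earlier vertices. -/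
def Gate.val (v : List Bool) : Gate → Bool
  | .and i j => v.getD i false && v.getD j false
  | .or i j => v.getD i false || v.getD j false
  | .not i => !v.getD i false

/-- All predecessors have a number below `m`. -/
def Gate.Below (m : ℕ) : Gate → Prop
  | .and i j => i < m ∧ j < m
  | .or i j => i < m ∧ j < m
  | .not i => i < m

/-- A circuit: the list of its gates and the number of its output vertex. -/
structure Circuit where
  gates : List Gate
  out : ℕ

/-- `C` is a circuit with `n` inputs: the predecessors of each gate come before it. -/
def Circuit.IsOn (C : Circuit) (n : ℕ) : Prop :=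
  (∀ (t : ℕ) (h : t < C.gates.length), (C.gates[t]).Below (n + t)) ∧ C.out < n + C.gates.length

/-- The number of vertices of a circuit with `n` inputs. -/
def Circuit.size (C : Circuit) (n : ℕ) : ℕ := n + C.gates.length

/-- The values of all vertices on the input `x`. -/
def Circuit.values (C : Circuit) (x : List Bool) : List Bool :=
  C.gates.foldl (fun v g => v ++ [g.val v]) x

/-- `C` computes the function `f` on the inputs of length `n`. -/
def Circuit.Computes (C : Circuit) (n : ℕ) (f : List Bool → Bool) : Prop :=
  ∀ x : List Bool, x.length = n → (C.values x).getD C.out false = f x

/-- `C`, with the constants `z` at its last inputs, computes `f` on the inputs of length `n`. -/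
def Circuit.ComputesWith (C : Circuit) (n : ℕ) (z : List Bool) (f : List Bool → Bool) : Prop :=
  ∀ x : List Bool, x.length = n → (C.values (x ++ z)).getD C.out false = f x

/-- A self-delimiting code of a bit string: a `1` before every bit and a `0` at the end. -/
def block (w : List Bool) : List Bool := w.flatMap (fun b => [true, b]) ++ [false]

/-- The code of a gate; numbers are written in binary. -/
def Gate.code : Gate → List Bool
  | .and i j => block [] ++ (block (Nat.bits i) ++ block (Nat.bits j))
  | .or i j => block [true] ++ (block (Nat.bits i) ++ block (Nat.bits j))
  | .not i => block [false] ++ (block (Nat.bits i) ++ block [])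

/-- The code of a circuit. -/
def Circuit.code (C : Circuit) : List Bool :=
  block (Nat.bits C.out) ++ C.gates.flatMap Gate.code

/-- The code of `(1^n, 1^i, a, b)`. -/
def word (n i : ℕ) (a b : List Bool) : List Bool :=
  List.replicate n true ++ false :: (List.replicate i true ++ false :: (block a ++ b))

/-- The answers to `t` adaptive queries to the language `Q`: each query consists of
`(1^n, 1^i, a)` and of the list of the earlier answers. -/
def answers (Q : List Bool → Bool) (n i : ℕ) (a : List Bool) : ℕ → List Bool
  | 0 => []
  | t + 1 => answers Q n i a t ++ [Q (word n i a (answers Q n i a t))]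

/-- The bits of the string `w` are given by `R` from an advice string `a` and the answers to `t`
adaptive queries to `Q`, where `|a| + t ≤ m`. -/
def Describes (Q R : List Bool → Bool) (n m : ℕ) (w : List Bool) : Prop :=
  ∃ (a : List Bool) (t : ℕ), a.length + t ≤ m ∧
    ∀ (i : ℕ) (h : i < w.length), w[i] = R (word n i a (answers Q n i a t))

/-- A class of languages which contains `P` and is closed under polynomial time many-one
reductions (for instance `P` and `NP`). -/
structure Closed (CC : Set (List Bool → Bool)) : Prop where
  P_subset : N68a2faeb.P ⊆ CC
  comp : ∀ L ∈ CC, ∀ f : List Bool → List Bool, N68a2faeb.IsPolyTime f → (fun x => L (f x)) ∈ CC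

/-- Conditions on `g`: nondecreasing, `g n ^ 2 ≤ n` and `log₂ n ≤ g n ^ c` for large `n`. -/
structure Growth (g : ℕ → ℕ) : Prop where
  mono : Monotone g
  sq : ∀ᶠ n in Filter.atTop, g n ^ 2 ≤ n
  log : ∃ c : ℕ, ∀ᶠ n in Filter.atTop, Nat.log 2 n ≤ g n ^ c

end Pool.Agent.LowComplexity
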