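import Pool.Agent.Lib_MP_22d2c8_uni.Iter

/-!
# Diagonalisation
-/

set_option autoImplicit false

namespace Pool.Agent.LowComplexity

open Pool.Agent.PartSep.TM Filter

/-- PROOF: `F = V`, `a = w`. -/
theorem Hyp.base {CC : Set (List Bool → Bool)} {V : List Bool × List Bool → Bool} {g : ℕ → ℕ}
    {K : ℕ} (hV : FP V) (h : Hyp CC V g K) : Adv CC (fun n => n * g n ^ K) := by
  refine ⟨V, hV, fun L hL => ?_⟩
  obtain ⟨Q, -, R, -, hn⟩ := h L hL
  filter_upwards [hn] with n hn
  obtain ⟨w, hw, hw2, -⟩ := hn
  exact ⟨w, hw, hw2⟩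

private theorem dg_length_block (a : List Bool) : (block a).length = 2 * a.length + 1 := by
  unfold block
  induction a with
  | nil => rfl
  | cons b a ih =>
    simp only [List.flatMap_cons, List.length_append, List.length_cons, List.length_nil] at ih ⊢
    omega

/-- PROOF. `D x = !F (x, (blocks x).getD 0 [])` is in `P` (`mem_P_of_FP`), so in the class. For large `n` let `a` be the
advice string for `D` and `x = block a ++ 0…0` of length `n` (`|block a| = 2 |a| + 1 ≤ n`):
`blocks x` starts with `a` (`blocks_eq`), contradiction. -/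
theorem not_Adv {CC : Set (List Bool → Bool)} (hC : Closed CC) {s : ℕ → ℕ}
    (hs : ∀ᶠ n in atTop, 2 * s n + 1 ≤ n) : ¬ Adv CC s := by
  rintro ⟨F, hF, h⟩
  have hD : FP (fun x : List Bool => !(F (x, (blocks x).getD 0 []))) := by
    refine FP.not ?_
    refine FP.comp hF (FP.pair FP.id ?_)
    exact FP.getE (FP_blocks FP.id) (FP.const 0) []
  have hn := (h _ (hC.P_subset (mem_P_of_FP hD))).and hs
  obtain ⟨n, ⟨a, ha, hx⟩, hns⟩ := hn.exists
  have hl : (block a).length ≤ n := by
    rw [dg_length_block]; omega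
  have hlen : (block a ++ List.replicate (n - (block a).length) false).length = n := by
    rw [List.length_append, List.length_replicate]; omega
  have h1 := hx _ hlen
  have h2 : blocks (block a ++ List.replicate (n - (block a).length) false) =
      a :: List.replicate (n - (block a).length) [] := by
    have h3 := blocks_eq [a] (n - (block a).length)
    simpa using h3
  rw [h2] at h1
  simp only [List.getD_cons_zero] at h1
  cases hFa : F (block a ++ List.replicate (n - (block a).length) false, a) <;>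
    rw [hFa] at h1 <;> simp at h1

private theorem dg_mono {CC : Set (List Bool → Bool)} {s s' : ℕ → ℕ}
    (hs : ∀ᶠ n in atTop, s n ≤ s' n) (h : Adv CC s) : Adv CC s' := by
  obtain ⟨F, hF, h⟩ := h
  refine ⟨F, hF, fun L hL => ?_⟩
  filter_upwards [h L hL, hs] with n hn hn2
  obtain ⟨a, ha, hx⟩ := hn
  exact ⟨a, ha.trans hn2, hx⟩

private theorem dg_tendsto {g : ℕ → ℕ} (hg : Growth g) (B : ℕ) : ∀ᶠ n in atTop, B ≤ g n := by
  obtain ⟨c, hc⟩ := hg.log
  filter_upwards [hc, eventually_ge_atTop (2 ^ (B ^ c + 1))] with n hn hn2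
  by_contra hlt
  have h1 : g n ^ c ≤ B ^ c := Nat.pow_le_pow_left (by omega) c
  have h2 : B ^ c + 1 ≤ Nat.log 2 n := Nat.le_log_of_pow_le (by norm_num) hn2
  omega

/-- PROOF. By descending induction from `Hyp.base`: for every `e ≤ K` there is `c` with `Adv CC (fun n => c * (n * g n ^ e))`
(`Hyp.step`: `g (3 m) ≤ g n` for `3 m ≤ n` and `(n / g n) * g n ≤ n`), one more step from `e = 0` gives
`Adv CC (fun n => c * (n / g n))`, and `g` tends to infinity. -/
theorem not_Hyp {CC : Set (List Bool → Bool)} (hC : Closed CC)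
    {V : List Bool × List Bool → Bool} (hV : FP V) {g : ℕ → ℕ} (hg : Growth g) (K : ℕ) :
    ¬ Hyp CC V g K := by
  intro h
  have key : ∀ d, d ≤ K → ∃ c : ℕ, Adv CC (fun n => c * (n * g n ^ (K - d))) := by
    intro d
    induction d with
    | zero =>
      intro _
      refine ⟨1, ?_⟩
      have := Hyp.base hV h
      simpa using this
    | succ d ih =>
      intro hd
      obtain ⟨c, hc⟩ := ih (by omega)
      refine ⟨12 * c + 18, ?_⟩
      have hstep := Hyp.step hC hV hg h hc
      refine dg_mono ?_ hstep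
      filter_upwards [dg_tendsto hg 3] with n hn
      obtain ⟨e, he⟩ : ∃ e, K - d = e + 1 := ⟨K - d - 1, by omega⟩
      have he' : K - (d + 1) = e := by omega
      rw [he, he']
      have hm : n / g n * g n ≤ n := Nat.div_mul_le_self n (g n)
      have h3m : 3 * (n / g n) ≤ n := by nlinarith [Nat.zero_le (n / g n)]
      have hgm : g (3 * (n / g n)) ≤ g n := hg.mono h3m
      have hpow : g (3 * (n / g n)) ^ (e + 1) ≤ g n ^ (e + 1) := Nat.pow_le_pow_left hgm _
      have hone : 1 ≤ g n ^ (e + 1) := Nat.one_le_pow _ _ (by omega)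
      calc 4 * (c * (3 * (n / g n) * g (3 * (n / g n)) ^ (e + 1))) + 18 * (n / g n)
          ≤ 4 * (c * (3 * (n / g n) * g n ^ (e + 1))) + 18 * (n / g n) * g n ^ (e + 1) := by
            refine Nat.add_le_add ?_ (Nat.le_mul_of_pos_right _ hone)
            gcongr
        _ = (12 * c + 18) * ((n / g n * g n) * g n ^ e) := by ring
        _ ≤ (12 * c + 18) * (n * g n ^ e) := by gcongr
  obtain ⟨c, hc⟩ := key K le_rfl
  have hstep := Hyp.step hC hV hg h hc
  refine not_Adv hC ?_ hstep
  filter_upwards [dg_tendsto hg (2 * (12 * c + 18) + 1), hg.sq, eventually_ge_atTop 1]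
    with n hn hsq hn1
  have hg1 : 0 < g n := by omega
  have hm : n / g n * g n ≤ n := Nat.div_mul_le_self n (g n)
  have hgn : g n ≤ n := by nlinarith
  have hm1 : 1 ≤ n / g n := Nat.div_pos hgn hg1
  have h2 : n / g n * (2 * (12 * c + 18) + 1) ≤ n := le_trans (Nat.mul_le_mul_left _ hn) hm
  simp only [Nat.sub_self, pow_zero, mul_one]
  nlinarith

end Pool.Agent.LowComplexity
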