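import Pool.Agent.Lib_MP_22d2c8_uni.Defs
import Pool.Agent.Lib_MP_42fe4d_lc.CL.CookLevin

/-!
# Binary numbers as polynomial time functions
-/

set_option autoImplicit false

namespace Pool.Agent.LowComplexity

open Pool.Agent.PartSep Pool.Agent.PartSep.TM Pool.Agent.PartSep.TM.Rep

set_option synthInstance.maxSize 2000

variable {E F : Type} [Rep E] [Rep F]

/-- the number with the given binary digits (least significant first), truncated at `N` -/
def capN (N : ℕ) (l : List Bool) : ℕ := l.foldr (fun b k => min N (2 * k + b.toNat)) 0

/-- PROOF. Induction `Nat.binaryRec'` (or `Nat.bits` and strong induction):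
`min N (2 * min N m + b) = min N (2 * m + b)`. -/
theorem capN_bits (N i : ℕ) : capN N (Nat.bits i) = min N i := by
  induction i using Nat.binaryRec' with
  | zero => simp [capN]
  | bit b n h ih =>
    rw [Nat.bits_append_bit n b h]
    unfold capN at ih ⊢
    rw [List.foldr_cons, ih, Nat.bit_val]
    cases b <;> simp <;> omega

private theorem FP_min_aux {f g : E → ℕ} (hf : FP f) (hg : FP g) :
    FP (fun x => min (f x) (g x)) :=
  (FP.ite (FP.natLe hf hg) hf hg).congr (fun x => by
    by_cases h : f x ≤ g x
    · simp [h]
    · have h' : g x ≤ f x := by omega
      simp [h, h'])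

private theorem FP_toNat_aux {p : E → Bool} (hp : FP p) : FP (fun x => (p x).toNat) :=
  (FP.ite hp (FP.const 1) (FP.const 0)).congr (fun x => by cases p x <;> rfl)

/-- PROOF. `foldr` is `foldl` of the reversed list; `FP.foldlE` with the bound `N` for the state
(unary numbers, `size_nat`). -/
theorem FP_capN {f : E → ℕ} {g : E → List Bool} (hf : FP f) (hg : FP g) :
    FP (fun x => capN (f x) (g x)) := by
  obtain ⟨p, hp⟩ := hf.size_le
  have h1 : FP (fun x => List.foldl (fun (k : ℕ) (b : Bool) => min (f x) (2 * k + b.toNat)) 0
      (g x).reverse) := by
    refine FP.foldlE (FP.reverseE hg) (init := fun _ => (0 : ℕ)) (FP.const _)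
      (step := fun y : E × ℕ × Bool => min (f y.1) (2 * y.2.1 + y.2.2.toNat)) ?_ ⟨p, ?_⟩
    · exact FP_min_aux (FP.comp hf FP.fst) (FP.add (FP.mulConst (FP.comp FP.fst FP.snd) 2)
        (FP_toNat_aux (FP.comp FP.snd FP.snd)))
    · intro x l' _
      refine le_trans ?_ (hp x)
      rw [size_nat, size_nat]
      induction l' using List.reverseRecOn with
      | nil => simp
      | append_singleton l a _ =>
        rw [List.foldl_append, List.foldl_cons, List.foldl_nil]
        exact min_le_left _ _
  refine h1.congr (fun x => ?_)
  unfold capN
  rw [List.foldl_reverse]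

/-- adding a carry to a binary number -/
private def addc : Bool → List Bool → List Bool
  | c, [] => if c then [true] else []
  | c, a :: l => (a != c) :: addc (c && a) l

private theorem addc_false (l : List Bool) : addc false l = l := by
  induction l with
  | nil => rfl
  | cons a l ih => simp [addc, ih]

private theorem bits_succ (n : ℕ) : Nat.bits (n + 1) = addc true (Nat.bits n) := by
  induction n using Nat.binaryRec' with
  | zero => simp [addc]
  | bit b m h ih =>
    rw [Nat.bits_append_bit m b h]
    cases b with
    | false =>
      have e : Nat.bit false m + 1 = Nat.bit true m := by simp [Nat.bit_val]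
      rw [e, Nat.bits_append_bit m true (fun _ => rfl)]
      simp [addc, addc_false]
    | true =>
      have e : Nat.bit true m + 1 = Nat.bit false (m + 1) := by
        simp only [Nat.bit_val, Bool.toNat_true, Bool.toNat_false]; omega
      rw [e, Nat.bits_append_bit (m + 1) false (fun h => by omega), ih]
      simp [addc]

private theorem size_addc (c : Bool) (l : List Bool) : size (addc c l) ≤ size l + 4 := by
  have ht : size true = 1 := by
    change ∑ _i : Unit, (if true then [Sym.i] else []).length = 1
    simp
  have hf : size false = 0 := by
    change ∑ _i : Unit, (if false then [Sym.i] else []).length = 0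
    simp
  have hc : Fintype.card (ix Bool) = 1 := by
    change Fintype.card Unit = 1
    simp
  induction l generalizing c with
  | nil =>
    cases c with
    | false => simp [addc]
    | true =>
      change size [true] ≤ _
      rw [size_cons, size_nilE, ht, hc]
  | cons a l ih =>
    cases c with
    | false => rw [addc_false]; omega
    | true =>
      cases a with
      | false =>
        have e : addc true (false :: l) = true :: l := by simp [addc, addc_false]
        rw [e, size_cons, size_cons, ht, hf, hc]
        omega
      | true =>
        have e : addc true (true :: l) = false :: addc true l := by simp [addc]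
        have h := ih true
        rw [e, size_cons, size_cons, ht, hf, hc]
        omega

private theorem addc_foldl (l : List Bool) : ∀ (acc : List Bool) (c : Bool),
    (if (List.foldl (fun (s : List Bool × Bool) (a : Bool) => ((a != s.2) :: s.1, s.2 && a))
        (acc, c) l).2 then
      true :: (List.foldl (fun (s : List Bool × Bool) (a : Bool) => ((a != s.2) :: s.1, s.2 && a))
        (acc, c) l).1
      else (List.foldl (fun (s : List Bool × Bool) (a : Bool) => ((a != s.2) :: s.1, s.2 && a))
        (acc, c) l).1).reverse = acc.reverse ++ addc c l := by
  induction l with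
  | nil =>
    intro acc c
    cases c <;> simp [addc]
  | cons a l ih =>
    intro acc c
    rw [List.foldl_cons, ih]
    simp [addc]

private theorem FP_addc {g : E → List Bool} (hg : FP g) : FP (fun x => addc true (g x)) := by
  have h1 : FP (fun x => List.foldl
      (fun (s : List Bool × Bool) (a : Bool) => ((a != s.2) :: s.1, s.2 && a))
      (([] : List Bool), true) (g x)) := by
    refine FP.foldlE_growth hg (init := fun _ => (([] : List Bool), true)) (FP.const _)
      (step := fun y : E × (List Bool × Bool) × Bool =>
        ((y.2.2 != y.2.1.2) :: y.2.1.1, y.2.1.2 && y.2.2)) ?_ 6 ?_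
    · exact FP.pair (FP.consE (FP.bne (FP.comp FP.snd FP.snd)
        (FP.comp FP.snd (FP.comp FP.fst FP.snd)))
        (FP.comp FP.fst (FP.comp FP.fst FP.snd)))
        (FP.and (FP.comp FP.snd (FP.comp FP.fst FP.snd)) (FP.comp FP.snd FP.snd))
    · intro x s a _
      have hc : Fintype.card (ix Bool) = 1 := by
        change Fintype.card Unit = 1
        simp
      have h2 := size_bool (a != s.2)
      have h3 := size_bool (s.2 && a)
      obtain ⟨s1, s2⟩ := s
      simp only [size_pair, size_cons, hc, Polynomial.eval_ofNat] at *
      omega
  refine (FP.reverseE (FP.ite (FP.comp FP.snd h1) (FP.consE (FP.const true) (FP.comp FP.fst h1))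
    (FP.comp FP.fst h1))).congr (fun x => ?_)
  simpa using addc_foldl (g x) [] true

/-- PROOF. `bits (n+1) = inc (bits n)` for the increment `inc` of a binary number (one pass with a
carry), `FP.natRec_growth`. -/
theorem FP_bits {f : E → ℕ} (hf : FP f) : FP (fun x => Nat.bits (f x)) := by
  have h1 := FP.natRec_growth hf (init := fun _ => ([] : List Bool)) (FP.const _)
    (step := fun y : E × List Bool => addc true y.2) (FP_addc FP.snd) 4 (by
      intro x s
      simpa using size_addc true s)
  refine h1.congr (fun x => ?_)
  simp only
  induction f x with
  | zero => simp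
  | succ k ih =>
    rw [Function.iterate_succ_apply', ih, bits_succ]

end Pool.Agent.LowComplexity
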