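import Pool.Agent.Lib_MP_22d2c8_uni.Blk
import Pool.Agent.Lib_MP_22d2c8_uni.Num

/-!
# Evaluation of the code of a circuit in polynomial time
-/

set_option autoImplicit false

namespace Pool.Agent.LowComplexity

open Pool.Agent.PartSep Pool.Agent.PartSep.TM Pool.Agent.PartSep.TM.Rep

set_option synthInstance.maxSize 2000

/-- value of a gate from the three blocks of its code -/
def gateVal (v op bi bj : List Bool) : Bool :=
  if op.isEmpty then v.getD (capN v.length bi) false && v.getD (capN v.length bj) false
  else if op.getD 0 false then v.getD (capN v.length bi) false || v.getD (capN v.length bj) false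
  else !v.getD (capN v.length bi) false

/-- one block is read -/
def stepU (s : List Bool × List (List Bool)) (b : List Bool) : List Bool × List (List Bool) :=
  if s.2.length = 2 then (s.1 ++ [gateVal s.1 (s.2.getD 1 []) (s.2.getD 0 []) b], [])
  else (s.1, b :: s.2)

/-- evaluation of a code of a circuit -/
def U (p : List Bool × List Bool) : Bool :=
  ((blocks p.2).tail.foldl stepU (p.1, [])).1.getD
    (capN ((blocks p.2).tail.foldl stepU (p.1, [])).1.length ((blocks p.2).getD 0 [])) false

/-- the three blocks of a gate -/
private def evu_gb : Gate → List (List Bool)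
  | .and i j => [[], Nat.bits i, Nat.bits j]
  | .or i j => [[true], Nat.bits i, Nat.bits j]
  | .not i => [[false], Nat.bits i, []]

private theorem evu_code (g : Gate) : g.code = (evu_gb g).flatMap block := by
  cases g <;> simp [Gate.code, evu_gb]

private theorem evu_getD (v : List Bool) (i : ℕ) :
    v.getD (capN v.length (Nat.bits i)) false = v.getD i false := by
  rw [capN_bits]
  by_cases h : v.length ≤ i
  · rw [min_eq_left h, List.getD_eq_default _ _ le_rfl, List.getD_eq_default _ _ h]
  · rw [min_eq_right (by omega)]

private theorem evu_step (v : List Bool) (g : Gate) :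
    List.foldl stepU (v, []) (evu_gb g) = (v ++ [g.val v], []) := by
  cases g with
  | and i j =>
    simp only [evu_gb, List.foldl_cons, List.foldl_nil, stepU, List.length_nil]
    norm_num
    simp only [gateVal, List.isEmpty_nil, if_true, evu_getD, Gate.val]
  | or i j =>
    simp only [evu_gb, List.foldl_cons, List.foldl_nil, stepU, List.length_nil]
    norm_num
    simp only [gateVal, List.isEmpty_cons, List.getD_cons_zero, Bool.false_eq_true, if_false,
      if_true, evu_getD, Gate.val]
  | not i =>
    simp only [evu_gb, List.foldl_cons, List.foldl_nil, stepU, List.length_nil]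
    norm_num
    simp only [gateVal, List.isEmpty_cons, List.getD_cons_zero, Bool.false_eq_true, if_false,
      evu_getD, Gate.val]

private theorem evu_fold (l : List Gate) (v : List Bool) :
    List.foldl stepU (v, []) (l.flatMap evu_gb) =
      (l.foldl (fun v g => v ++ [g.val v]) v, []) := by
  induction l generalizing v with
  | nil => rfl
  | cons g l ih =>
    rw [List.flatMap_cons, List.foldl_append, evu_step, ih, List.foldl_cons]

private theorem evu_blocks (C : Circuit) :
    blocks C.code = Nat.bits C.out :: C.gates.flatMap evu_gb := by
  have h := blocks_eq (Nat.bits C.out :: C.gates.flatMap evu_gb) 0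
  rw [List.replicate_zero, List.replicate_zero, List.append_nil, List.append_nil,
    List.flatMap_cons] at h
  rw [← h]
  congr 1
  unfold Circuit.code
  congr 1
  rw [List.flatMap_assoc]
  congr 1
  funext g
  exact evu_code g

/-- PROOF. `C.code` is a concatenation of blocks (three for each gate), `blocks_eq` with `k = 0`; three steps of
`stepU` are one step of `Circuit.values` by `capN_bits`
(`v.getD (min v.length i) false = v.getD i false`). -/
theorem U_code (C : Circuit) (x : List Bool) :
    U (x, C.code) = (C.values x).getD C.out false := by
  unfold U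
  rw [evu_blocks, List.tail_cons, evu_fold, List.getD_cons_zero, evu_getD]
  rfl

private theorem evu_nth {E : Type} [Rep E] {v : E → List Bool} {b : E → List Bool} (hv : FP v)
    (hb : FP b) : FP (fun x => (v x).getD (capN (v x).length (b x)) false) := by
  refine (FP.getE hv (FP_capN (FP.lengthE hv) hb) false).congr (fun x => ?_)
  rw [List.getD_eq_getElem?_getD]

private theorem evu_getF {E F : Type} [Rep E] [Rep F] [Inhabited F] {l : E → List F} (hl : FP l)
    (n : ℕ) (d : F) : FP (fun x => (l x).getD n d) := by
  refine (FP.getE hl (FP.const n) d).congr (fun x => ?_)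
  rw [List.getD_eq_getElem?_getD]

private theorem evu_gate {E : Type} [Rep E] {v op bi bj : E → List Bool} (hv : FP v) (ho : FP op)
    (hi : FP bi) (hj : FP bj) : FP (fun x => gateVal (v x) (op x) (bi x) (bj x)) := by
  unfold gateVal
  exact FP.ite (FP.isEmptyE ho) (FP.and (evu_nth hv hi) (evu_nth hv hj))
    (FP.ite (evu_getF ho 0 false) (FP.or (evu_nth hv hi) (evu_nth hv hj))
      (FP.not (evu_nth hv hi)))

private theorem evu_stepFP : FP (fun y : (List Bool × List Bool) ×
    ((List Bool × List (List Bool)) × List Bool) => stepU y.2.1 y.2.2) := by
  have h1 : FP (fun y : (List Bool × List Bool) × ((List Bool × List (List Bool)) × List Bool) =>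
      y.2.1.1) := FP.comp FP.fst (FP.comp FP.fst FP.snd)
  have h2 : FP (fun y : (List Bool × List Bool) × ((List Bool × List (List Bool)) × List Bool) =>
      y.2.1.2) := FP.comp FP.snd (FP.comp FP.fst FP.snd)
  have h3 : FP (fun y : (List Bool × List Bool) × ((List Bool × List (List Bool)) × List Bool) =>
      y.2.2) := FP.comp FP.snd FP.snd
  refine (FP.ite (FP.natEq (FP.lengthE h2) (FP.const 2))
    (FP.pair (FP.appendE h1 (FP.consE (evu_gate h1 (evu_getF h2 1 []) (evu_getF h2 0 []) h3)
      (FP.const []))) (FP.const []))
    (FP.pair h1 (FP.consE h3 h2))).congr (fun y => ?_)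
  unfold stepU
  simp only [decide_eq_true_eq]

/-- PROOF. `FP.foldlE_growth`, `FP.ite`, `FP.getE` (`List.getD_eq_getElem?_getD`), `FP_capN`,
`FP_blocks`. -/
theorem FP_U : FP U := by
  have hb : FP (fun p : List Bool × List Bool => blocks p.2) := FP_blocks FP.snd
  obtain ⟨pb, hpb⟩ := hb.size_le
  have hf := FP.foldlE_growth (FP.tailE hb) (init := fun p : List Bool × List Bool =>
      ((p.1, []) : List Bool × List (List Bool)))
    (FP.pair FP.fst (FP.const _)) (step := fun y => stepU y.2.1 y.2.2) evu_stepFP
    (Polynomial.C (4 + Fintype.card (ix Bool) + Fintype.card (ix (List Bool))) + 2 * pb) (by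
      intro x s a ha
      have h1 : size a ≤ pb.eval (size x) := by
        refine le_trans (size_le_of_mem (List.mem_of_mem_tail ha)) (hpb x)
      simp only [Polynomial.eval_add, Polynomial.eval_C, Polynomial.eval_mul,
        Polynomial.eval_ofNat]
      unfold stepU
      by_cases h : s.2.length = 2
      · rw [if_pos h, size_pair]
        change size (s.1 ++ [gateVal s.1 (s.2.getD 1 []) (s.2.getD 0 []) a]) +
          size ([] : List (List Bool)) ≤ _
        rw [size_append, size_cons, size_nilE, size_nilE]
        have h2 := size_bool (gateVal s.1 (s.2.getD 1 []) (s.2.getD 0 []) a)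
        have h3 : size s = size s.1 + size s.2 := size_pair s
        omega
      · rw [if_neg h, size_pair]
        change size s.1 + size (a :: s.2) ≤ _
        rw [size_cons]
        have h3 : size s = size s.1 + size s.2 := size_pair s
        omega)
  exact evu_nth (FP.comp FP.fst hf) (evu_getF hb 0 [])

end Pool.Agent.LowComplexity
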