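import Pool.Agent.Lib_MP_22d2c8_uni.EvalU
import Pool.Agent.Lib_MP_22d2c8_uni.Diag

/-!
# The final theorem for circuits
-/

set_option autoImplicit false

namespace Pool.Agent.LowComplexity

open Pool.Agent.PartSep.TM Filter

/-- PROOF. By contradiction `Hyp CC U g K` for the `K` of `code_bound` (`U_code`, `length_code`);
`not_Hyp`. -/
theorem main {CC : Set (List Bool → Bool)} (hC : Closed CC) {g : ℕ → ℕ} (hg : Growth g) (k : ℕ) :
    ∃ L ∈ CC, ∀ Q ∈ CC, ∀ R ∈ CC, ∃ᶠ n in atTop, ∀ C : Circuit, C.IsOn n →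
      C.size n ≤ n * g n ^ k → C.Computes n L → ¬ Describes Q R n (n / g n) C.code := by
  obtain ⟨K, hK⟩ := code_bound hg k
  by_contra hcon
  refine not_Hyp hC FP_U hg K fun L hL => ?_
  by_contra hH
  refine hcon ⟨L, hL, fun Q hQ R hR => ?_⟩
  by_contra hf
  rw [Filter.not_frequently] at hf
  refine hH ⟨Q, hQ, R, hR, ?_⟩
  filter_upwards [hf, hK] with n hn hKn
  push Not at hn
  obtain ⟨C, h1, h2, h3, h4⟩ := hn
  refine ⟨C.code, (length_code C n _ h1 h2).trans hKn, fun x hx => ?_, h4⟩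
  rw [U_code]
  exact h3 x hx

end Pool.Agent.LowComplexity
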