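import Pool.Agent.Lib_MP_22d2c8_uni.Defs

/-!
# Arithmetic of the sizes
-/

set_option autoImplicit false

namespace Pool.Agent.LowComplexity

open Filter

/-- PROOF. `Nat.log 2 n` tends to infinity and is eventually at most `g n ^ c`; `g` is monotone. -/
theorem Growth.tendsto {g : ℕ → ℕ} (hg : Growth g) : Tendsto g atTop atTop := by
  refine tendsto_atTop_atTop_of_monotone hg.mono ?_
  intro b
  by_contra hcon
  push Not at hcon
  obtain ⟨c, hc⟩ := hg.log
  obtain ⟨N, hN⟩ := eventually_atTop.mp hc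
  have h1 := hN (2 ^ (max N (b ^ c + 1)))
    (le_trans (le_max_left N (b ^ c + 1)) (Nat.lt_two_pow_self).le)
  rw [Nat.log_pow (by norm_num : 1 < 2)] at h1
  have h2 : g (2 ^ (max N (b ^ c + 1))) ^ c ≤ b ^ c := Nat.pow_le_pow_left (hcon _).le c
  have h3 := le_max_right N (b ^ c + 1)
  omega

private theorem sizes_tendsto_log : Tendsto (fun n : ℕ => Nat.log 2 n) atTop atTop := by
  refine tendsto_atTop_atTop_of_monotone (fun a b h => Nat.log_mono_right h) ?_
  intro b
  exact ⟨2 ^ b, by rw [Nat.log_pow (by norm_num : 1 < 2)]⟩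

private theorem sizes_size_pow (n r S : ℕ) (hS : S ≤ n ^ (r + 1)) :
    Nat.size S ≤ (r + 1) * (Nat.log 2 n + 1) := by
  rw [Nat.size_le]
  calc S ≤ n ^ (r + 1) := hS
    _ < (2 ^ (Nat.log 2 n + 1)) ^ (r + 1) :=
        Nat.pow_lt_pow_left (Nat.lt_pow_succ_log_self (by norm_num) n) (Nat.succ_ne_zero r)
    _ = 2 ^ ((r + 1) * (Nat.log 2 n + 1)) := by rw [← pow_mul, mul_comm]

private theorem sizes_block_length (w : List Bool) : (block w).length = 2 * w.length + 1 := by
  have h : ∀ w : List Bool, (w.flatMap (fun b => [true, b])).length = 2 * w.length := by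
    intro w
    induction w with
    | nil => rfl
    | cons a t ih =>
      rw [List.flatMap_cons, List.length_append, ih, List.length_cons, List.length_cons,
        List.length_cons, List.length_nil]
      omega
  rw [block, List.length_append, h, List.length_singleton]

private theorem sizes_exp (A : ℕ) : ∀ᶠ L : ℕ in atTop, (A * (L + 1) + 6) ^ 2 < 2 ^ L := by
  have h1 := tendsto_pow_const_div_const_pow_of_one_lt 2 (r := (2 : ℝ)) (by norm_num)
  have hpos : (0 : ℝ) < 1 / ((2 * A + 6 : ℕ) : ℝ) ^ 2 := by positivity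
  filter_upwards [h1.eventually (gt_mem_nhds hpos), eventually_ge_atTop 1] with L hL hL1
  have hb : (A * (L + 1) + 6) ^ 2 ≤ ((2 * A + 6) * L) ^ 2 := by
    apply Nat.pow_le_pow_left
    nlinarith [Nat.mul_le_mul_left A hL1]
  refine lt_of_le_of_lt hb ?_
  have h2 : ((L : ℝ)) ^ 2 * ((2 * A + 6 : ℕ) : ℝ) ^ 2 < (2 : ℝ) ^ L := by
    rw [div_lt_div_iff₀ (by positivity) (by positivity)] at hL
    linarith
  have h3 : ((((2 * A + 6) * L) ^ 2 : ℕ) : ℝ) < ((2 ^ L : ℕ) : ℝ) := by
    push_cast at h2 ⊢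
    nlinarith
  exact_mod_cast h3

/-- The sizes: with `m = n / g n`, `M = 3 m`, for large `n`. PROOF. `g n ^ 2 ≤ n` gives `g n ≤ m` and `n < (m + 1) g n ≤ M ^ 2`.
The lengths of `Nat.bits n` and of `Nat.bits i` for `i ≤ n ^ (K+1)` are at most `(K + 1) (log₂ n + 1)`, and
`(2 K + 4) (log₂ n + 1) + 4 ≤ m` for large `n` (as `√n - 1 ≤ m`). -/
theorem sizes {g : ℕ → ℕ} (hg : Growth g) (K : ℕ) :
    ∀ᶠ n in atTop, n * g n ^ K ≤ n ^ (K + 1) ∧ n ≤ (3 * (n / g n)) ^ (2 * K + 2) ∧
      n ^ (K + 1) ≤ (3 * (n / g n)) ^ (2 * K + 2) ∧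
      ∀ (i : ℕ) (a b : List Bool), i ≤ n ^ (K + 1) → a.length + b.length ≤ n / g n →
        ([Nat.bits n, Nat.bits i, a, b].flatMap block).length ≤ 3 * (n / g n) ∧
        (Nat.bits i).length ≤ n / g n ∧ 1 ≤ n / g n := by
  filter_upwards [hg.sq, hg.tendsto.eventually_ge_atTop 1, eventually_ge_atTop 1,
    sizes_tendsto_log.eventually (sizes_exp (2 * K + 4))] with n hsq hg1 hn1 hexp
  have hgn : g n ≤ n := le_trans (by nlinarith) hsq
  have hgm : g n ≤ n / g n := by
    rw [Nat.le_div_iff_mul_le (by omega)]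
    nlinarith
  have hm1 : 1 ≤ n / g n := le_trans hg1 hgm
  have hlt : n < (n / g n + 1) * g n := by
    have := Nat.lt_mul_div_succ n (show 0 < g n by omega)
    rw [mul_comm]
    exact this
  have hltm : n < (n / g n + 1) * (n / g n) := lt_of_lt_of_le hlt (Nat.mul_le_mul_left _ hgm)
  have hM2 : n ≤ (3 * (n / g n)) ^ 2 := by nlinarith
  have hc : n ^ (K + 1) ≤ (3 * (n / g n)) ^ (2 * K + 2) := by
    calc n ^ (K + 1) ≤ ((3 * (n / g n)) ^ 2) ^ (K + 1) := Nat.pow_le_pow_left hM2 _
      _ = (3 * (n / g n)) ^ (2 * K + 2) := by rw [← pow_mul]; congr 1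
  have hlarge : (2 * K + 4) * (Nat.log 2 n + 1) + 4 ≤ n / g n := by
    by_contra hcon
    push Not at hcon
    have h1 : 2 ^ Nat.log 2 n ≤ n := Nat.pow_log_le_self 2 (by omega)
    have h2 : n < ((2 * K + 4) * (Nat.log 2 n + 1) + 6) ^ 2 := by
      refine lt_of_lt_of_le hltm ?_
      rw [sq]
      exact Nat.mul_le_mul (by omega) (by omega)
    omega
  refine ⟨?_, ?_, hc, ?_⟩
  · rw [pow_succ']
    exact Nat.mul_le_mul_left _ (Nat.pow_le_pow_left hgn K)
  · calc n = n ^ 1 := (pow_one n).symm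
      _ ≤ n ^ (K + 1) := Nat.pow_le_pow_right hn1 (by omega)
      _ ≤ _ := hc
  · intro i a b hi hab
    have hs1 : Nat.size n ≤ (0 + 1) * (Nat.log 2 n + 1) :=
      sizes_size_pow n 0 n (by rw [zero_add, pow_one])
    have hs2 := sizes_size_pow n K i hi
    have hs3 : (K + 1) * (Nat.log 2 n + 1) + (K + 1) * (Nat.log 2 n + 1) + 2 * (Nat.log 2 n + 1)
        = (2 * K + 4) * (Nat.log 2 n + 1) := by ring
    refine ⟨?_, ?_, hm1⟩
    · rw [List.flatMap_cons, List.flatMap_cons, List.flatMap_cons, List.flatMap_cons,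
        List.flatMap_nil, List.append_nil, List.length_append, List.length_append,
        List.length_append, sizes_block_length, sizes_block_length, sizes_block_length,
        sizes_block_length, Nat.size_eq_bits_len, Nat.size_eq_bits_len]
      omega
    · rw [Nat.size_eq_bits_len]
      omega

/-- PROOF. With `S = n * g n ^ k ≤ n ^ (k + 1)`: `Nat.size S ≤ (k + 1) (log₂ n + 1)`,
`log₂ n ≤ g n ^ c`, and `g n` tends to infinity; `K = k + c + 3` works. -/
theorem code_bound {g : ℕ → ℕ} (hg : Growth g) (k : ℕ) :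
    ∃ K : ℕ, ∀ᶠ n in atTop, (n * g n ^ k + 1) * (4 * Nat.size (n * g n ^ k) + 5) ≤ n * g n ^ K := by
  obtain ⟨c, hc⟩ := hg.log
  refine ⟨k + (c + 1), ?_⟩
  filter_upwards [hg.sq, hg.tendsto.eventually_ge_atTop (26 * (k + 1)), eventually_ge_atTop 1, hc]
    with n hsq hg1 hn1 hlog
  have hgpos : 1 ≤ g n := by omega
  have hgn : g n ≤ n := le_trans (by nlinarith) hsq
  have hS : n * g n ^ k ≤ n ^ (k + 1) := by
    rw [pow_succ']
    exact Nat.mul_le_mul_left _ (Nat.pow_le_pow_left hgn k)
  have hs := sizes_size_pow n k _ hS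
  have hgc : 1 ≤ g n ^ c := Nat.one_le_pow _ _ hgpos
  have hSpos : 1 ≤ n * g n ^ k := Nat.mul_pos hn1 (Nat.pow_pos hgpos)
  have h1 : 4 * Nat.size (n * g n ^ k) + 5 ≤ 13 * (k + 1) * g n ^ c := by
    have h2 : (k + 1) * (Nat.log 2 n + 1) ≤ (k + 1) * (2 * g n ^ c) :=
      Nat.mul_le_mul_left _ (by omega)
    have h3 : 5 * 1 ≤ 5 * ((k + 1) * g n ^ c) :=
      Nat.mul_le_mul_left _ (Nat.mul_pos (by omega) hgc)
    calc 4 * Nat.size (n * g n ^ k) + 5 ≤ 4 * ((k + 1) * (2 * g n ^ c)) + 5 * ((k + 1) * g n ^ c) := by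
          omega
      _ = 13 * (k + 1) * g n ^ c := by ring
  calc (n * g n ^ k + 1) * (4 * Nat.size (n * g n ^ k) + 5)
      ≤ (2 * (n * g n ^ k)) * (13 * (k + 1) * g n ^ c) := Nat.mul_le_mul (by omega) h1
    _ = (n * g n ^ k) * g n ^ c * (26 * (k + 1)) := by ring
    _ ≤ (n * g n ^ k) * g n ^ c * g n := Nat.mul_le_mul_left _ hg1
    _ = n * g n ^ (k + (c + 1)) := by ring

private theorem sizes_sum_le (l : List Gate) (f : Gate → ℕ) (B : ℕ) (h : ∀ x ∈ l, f x ≤ B) :
    (l.map f).sum ≤ l.length * B := by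
  induction l with
  | nil => simp
  | cons a t ih =>
    rw [List.map_cons, List.sum_cons, List.length_cons, add_mul, one_mul, add_comm]
    exact Nat.add_le_add (ih fun x hx => h x (List.mem_cons_of_mem a hx)) (h a List.mem_cons_self)

/-- PROOF. All numbers are below `n + C.gates.length ≤ S`, so
`(Nat.bits i).length = Nat.size i ≤ Nat.size S`; the code of a gate has length at most
`4 * Nat.size S + 5`. -/
theorem length_code (C : Circuit) (n S : ℕ) (h : C.IsOn n) (hS : C.size n ≤ S) :
    C.code.length ≤ (S + 1) * (4 * Nat.size S + 5) := by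
  have hS' : n + C.gates.length ≤ S := hS
  have hbl : ∀ i : ℕ, i ≤ S → (block (Nat.bits i)).length ≤ 2 * Nat.size S + 1 := by
    intro i hi
    rw [sizes_block_length, Nat.size_eq_bits_len]
    have := Nat.size_le_size hi
    omega
  have hgate : ∀ x ∈ C.gates, x.code.length ≤ 4 * Nat.size S + 5 := by
    intro x hx
    obtain ⟨t, ht, rfl⟩ := List.mem_iff_getElem.mp hx
    have hb := h.1 t ht
    have h0 : (block []).length = 1 := by rw [sizes_block_length]; rfl
    have h1 : ∀ b : Bool, (block [b]).length = 3 := by intro b; rw [sizes_block_length]; rfl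
    cases hgx : C.gates[t] with
    | and i j =>
      rw [hgx] at hb
      have hb1 : i < n + t := hb.1
      have hb2 : j < n + t := hb.2
      rw [Gate.code, List.length_append, List.length_append, h0]
      have := hbl i (by omega)
      have := hbl j (by omega)
      omega
    | or i j =>
      rw [hgx] at hb
      have hb1 : i < n + t := hb.1
      have hb2 : j < n + t := hb.2
      rw [Gate.code, List.length_append, List.length_append, h1]
      have := hbl i (by omega)
      have := hbl j (by omega)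
      omega
    | not i =>
      rw [hgx] at hb
      have hb1 : i < n + t := hb
      rw [Gate.code, List.length_append, List.length_append, h0, h1]
      have := hbl i (by omega)
      omega
  rw [Circuit.code, List.length_append, List.length_flatMap]
  have h2 := sizes_sum_le C.gates (fun x => x.code.length) _ hgate
  have h3 := hbl C.out (by have := h.2; omega)
  have h4 : C.gates.length * (4 * Nat.size S + 5) ≤ S * (4 * Nat.size S + 5) :=
    Nat.mul_le_mul_right _ (by omega)
  rw [add_mul, one_mul]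
  omega

end Pool.Agent.LowComplexity
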