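import Pool.Agent.Lib_MP_22d2c8_uni.StepFP
import Pool.Agent.Lib_MP_22d2c8_uni.StepEq
import Pool.Agent.Lib_MP_22d2c8_uni.Sizes

/-!
# Iteration of the compression step
-/

set_option autoImplicit false

namespace Pool.Agent.LowComplexity

open Pool.Agent.PartSep.TM Filter

/-- PROOF. `F' = nextF V F (K + 1)`. Given `L`, take `Q, R` from `h`; the languages
`fun z => Q (dcd (2 * K + 2) z)` and the same with `R` belong to the class by `hC.comp`
(`isPolyTime_of_FP`, `FP_dcd`). For large `n`, `M = 3 (n / g n)` is large (`Tendsto`), so there are advice strings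
`u`, `v` of length at most `s M` for them at the length `M`; the new advice string is
`[a, 1^t, 1^M, bits w.length, u, v].flatMap block`, and `nextF_eq`, `dcd_enc`, `sizes` apply. -/
theorem Hyp.step {CC : Set (List Bool → Bool)} (hC : Closed CC)
    {V : List Bool × List Bool → Bool} (hV : FP V) {g : ℕ → ℕ} (hg : Growth g) {K : ℕ}
    (h : Hyp CC V g K) {s : ℕ → ℕ} (hs : Adv CC s) :
    Adv CC (fun n => 4 * s (3 * (n / g n)) + 18 * (n / g n)) := by
  obtain ⟨F, hF, hFL⟩ := hs
  refine ⟨nextF V F (K + 1), FP_nextF hV hF (K + 1), fun L hL => ?_⟩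
  obtain ⟨Q, hQ, R, hR, hev⟩ := h L hL
  have hpt : N68a2faeb.IsPolyTime (dcd (2 * K + 2)) := isPolyTime_of_FP (FP_dcd _)
  have hQ' := hFL _ (hC.comp Q hQ _ hpt)
  have hR' := hFL _ (hC.comp R hR _ hpt)
  have hm : Tendsto (fun n => 3 * (n / g n)) atTop atTop := by
    refine tendsto_atTop_mono' _ ?_ hg.tendsto
    filter_upwards [hg.sq, hg.tendsto.eventually_ge_atTop 1] with n hn h1
    have : g n ≤ n / g n := by
      rw [Nat.le_div_iff_mul_le h1]
      nlinarith
    omega
  filter_upwards [hev, sizes hg K, hm.eventually hQ', hm.eventually hR'] with n hw hsz hq hr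
  obtain ⟨w, hwl, hwV, a, t, hat, hwR⟩ := hw
  obtain ⟨u, hul, hu⟩ := hq
  obtain ⟨v, hvl, hv⟩ := hr
  obtain ⟨hs1, hs2, hs3, hs4⟩ := hsz
  set M := 3 * (n / g n) with hM
  have hwn : w.length ≤ n ^ (K + 1) := hwl.trans hs1
  have hfit : ∀ i b, i < w.length → b.length ≤ t →
      ([Nat.bits n, Nat.bits i, a, b].flatMap block).length ≤ M := by
    intro i b hi hb
    exact (hs4 i a b (hi.le.trans hwn) (by omega)).1
  have hQe : ∀ i b, i < w.length → b.length ≤ t → F (enc M n i a b, u) = Q (word n i a b) := by
    intro i b hi hb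
    have h1 := dcd_enc (2 * K + 2) M n i a b (hfit i b hi hb) hs2
      ((hi.le.trans hwn).trans hs3)
    rw [hu _ h1.1, h1.2]
  have hRe : ∀ i b, i < w.length → b.length ≤ t → F (enc M n i a b, v) = R (word n i a b) := by
    intro i b hi hb
    have h1 := dcd_enc (2 * K + 2) M n i a b (hfit i b hi hb) hs2
      ((hi.le.trans hwn).trans hs3)
    rw [hv _ h1.1, h1.2]
  refine ⟨[a, List.replicate t true, List.replicate M true, Nat.bits w.length, u,
      v].flatMap block, ?_, fun x hx => ?_⟩
  · have hbl : ∀ y : List Bool, (block y).length = 2 * y.length + 1 := by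
      intro y
      unfold block
      rw [List.length_append, List.length_flatMap]
      simp [mul_comm]
    have h4 := (hs4 w.length a [] hwn (by simp; omega)).2
    simp only [List.flatMap_cons, List.flatMap_nil, List.length_append, List.length_nil, hbl,
      List.length_replicate]
    omega
  · rw [nextF_eq V F (K + 1) M n Q R a t w u v x hx hwn hwR hQe hRe]
    exact hwV x hx

end Pool.Agent.LowComplexity
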