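import Pool.Agent.Lib_MP_22d2c8_uni.Bits
import Pool.Agent.Lib_MP_22d2c8_uni.Diag
import Pool.Agent.Lib_MP_22d2c8_uni.EvalU

/-!
# The theorem for circuits with arbitrary constants
-/

set_option autoImplicit false

namespace Pool.Agent.LowComplexity

open Pool.Agent.PartSep.TM Filter

/-- The assumption to be refuted, with strings `z` of length at most `β n` of arbitrary constants. -/
def HypC (CC : Set (List Bool → Bool)) (V : List Bool × List Bool → Bool) (g β : ℕ → ℕ) (K : ℕ) :
    Prop :=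
  ∀ L ∈ CC, ∃ Q ∈ CC, ∃ R ∈ CC, ∀ᶠ n in atTop, ∃ w z : List Bool,
    w.length ≤ n * g n ^ K ∧ z.length ≤ β n ∧
      (∀ x : List Bool, x.length = n → V (x ++ z, w) = L x) ∧ Describes Q R n (n / g n) w

private theorem ic_mono {CC : Set (List Bool → Bool)} {s s' : ℕ → ℕ}
    (hs : ∀ᶠ n in atTop, s n ≤ s' n) (h : Adv CC s) : Adv CC s' := by
  obtain ⟨F, hF, h⟩ := h
  refine ⟨F, hF, fun L hL => ?_⟩
  filter_upwards [h L hL, hs] with n hn hn2
  obtain ⟨a, ha, hx⟩ := hn
  exact ⟨a, ha.trans hn2, hx⟩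

private theorem ic_get {E : Type} [Rep E] {f : E → List Bool} (hf : FP f) (k : ℕ) :
    FP (fun x => (blocks (f x)).getD k []) :=
  (FP.getE (FP_blocks hf) (FP.const k) []).congr (fun x => by rw [List.getD_eq_getElem?_getD])

theorem HypC.base {CC : Set (List Bool → Bool)} {V : List Bool × List Bool → Bool} {g β : ℕ → ℕ}
    {K : ℕ} (hV : FP V) (hβ : ∀ n, β n ≤ n) (h : HypC CC V g β K) :
    Adv CC (fun n => 2 * (n * g n ^ K) + 2 * n + 2) := by
  refine ⟨fun p => V (p.1 ++ (blocks p.2).getD 1 [], (blocks p.2).getD 0 []), ?_, fun L hL => ?_⟩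
  · exact FP.comp hV (FP.pair (FP.appendE FP.fst (ic_get FP.snd 1)) (ic_get FP.snd 0))
  · obtain ⟨Q, -, R, -, hn⟩ := h L hL
    filter_upwards [hn] with n hn
    obtain ⟨w, z, hw, hz, hx, -⟩ := hn
    refine ⟨[w, z].flatMap block, ?_, fun x hxn => ?_⟩
    · have := hβ n
      simp only [List.flatMap_cons, List.flatMap_nil, List.length_append, List.length_nil,
        length_block]
      omega
    · have hb : blocks ([w, z].flatMap block) = [w, z] := by
        have := blocks_eq [w, z] 0
        simpa using this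
      simp only [hb, List.getD_cons_zero, List.getD_cons_succ]
      exact hx x hxn

theorem HypC.step {CC : Set (List Bool → Bool)} (hC : Closed CC)
    {V : List Bool × List Bool → Bool} (hV : FP V) {g β : ℕ → ℕ} (hβ : ∀ n, β n ≤ n)
    (hg : Growth g) {K : ℕ}
    (h : HypC CC V g β K) {s : ℕ → ℕ} (hs : Adv CC s) :
    Adv CC (fun n => β n + 4 * s (3 * (n / g n)) + 24 * (n / g n)) := by
  obtain ⟨F, hF, hFL⟩ := hs
  refine ⟨fun p => V (p.1 ++ lastN 6 p.2, bitsOf F (K + 1) p), ?_, fun L hL => ?_⟩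
  · exact FP.comp hV (FP.pair (FP.appendE FP.fst (FP_lastN FP.snd 6)) (FP_bitsOf hF (K + 1)))
  obtain ⟨Q, hQ, R, hR, hev⟩ := h L hL
  have hpt : N68a2faeb.IsPolyTime (dcd (2 * K + 2)) := isPolyTime_of_FP (FP_dcd _)
  have hQ' := hFL _ (hC.comp Q hQ _ hpt)
  have hR' := hFL _ (hC.comp R hR _ hpt)
  have hm : Tendsto (fun n => 3 * (n / g n)) atTop atTop := by
    refine tendsto_atTop_mono' _ ?_ hg.tendsto
    filter_upwards [hg.sq, hg.tendsto.eventually_ge_atTop 1] with n hn h1
    have : g n ≤ n / g n := by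
      rw [Nat.le_div_iff_mul_le h1]
      nlinarith
    omega
  filter_upwards [hev, sizes hg K, hm.eventually hQ', hm.eventually hR'] with n hw hsz hq hr
  obtain ⟨w, z, hwl, hzl, hwV, a, t, hat, hwR⟩ := hw
  obtain ⟨u, hul, hu⟩ := hq
  obtain ⟨v, hvl, hv⟩ := hr
  obtain ⟨hs1, hs2, hs3, hs4⟩ := hsz
  set M := 3 * (n / g n) with hM
  have hwn : w.length ≤ n ^ (K + 1) := hwl.trans hs1
  have hzn : z.length ≤ n ^ (K + 1) := by
    refine (hzl.trans (hβ n)).trans ?_
    exact Nat.le_self_pow (by omega) n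
  have hfit : ∀ i b, i < w.length → b.length ≤ t →
      ([Nat.bits n, Nat.bits i, a, b].flatMap block).length ≤ M := by
    intro i b hi hb
    exact (hs4 i a b (hi.le.trans hwn) (by omega)).1
  have hQe : ∀ i b, i < w.length → b.length ≤ t → F (enc M n i a b, u) = Q (word n i a b) := by
    intro i b hi hb
    have h1 := dcd_enc (2 * K + 2) M n i a b (hfit i b hi hb) hs2
      ((hi.le.trans hwn).trans hs3)
    rw [hu _ h1.1, h1.2]
  have hRe : ∀ i b, i < w.length → b.length ≤ t → F (enc M n i a b, v) = R (word n i a b) := by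
    intro i b hi hb
    have h1 := dcd_enc (2 * K + 2) M n i a b (hfit i b hi hb) hs2
      ((hi.le.trans hwn).trans hs3)
    rw [hv _ h1.1, h1.2]
  refine ⟨([a, List.replicate t true, List.replicate M true, Nat.bits w.length, u,
      v] ++ [Nat.bits z.length]).flatMap block ++ ([] ++ z), ?_, fun x hx => ?_⟩
  · have h4 := (hs4 w.length a [] hwn (by simp; omega)).2
    have h5 := (hs4 z.length a [] hzn (by simp; omega)).2
    simp only [List.flatMap_append, List.flatMap_cons, List.flatMap_nil, List.length_append,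
      List.length_nil, length_block, List.length_replicate]
    omega
  · have h1 := bitsOf_eq F (K + 1) M n Q R a t w u v x [Nat.bits z.length] ([] ++ z) hx hwn hwR
      hQe hRe
    have h2 := lastN_eq 6 ([a, List.replicate t true, List.replicate M true,
      Nat.bits w.length, u, v] ++ [Nat.bits z.length]) [] z (by simp) (by simp)
    simp only [h1, h2]
    exact hwV x hx

theorem not_Adv' {CC : Set (List Bool → Bool)} (hC : Closed CC) {s : ℕ → ℕ}
    (hs : ∀ᶠ n in atTop, ∀ l, l ≤ s n → 2 * (Nat.bits l).length + 1 + l ≤ n) : ¬ Adv CC s := by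
  rintro ⟨F, hF, h⟩
  have hD : FP (fun x : List Bool => !(F (x, lastN 0 x))) := by
    refine FP.not ?_
    exact FP.comp hF (FP.pair FP.id (FP_lastN FP.id 0))
  have hn := (h _ (hC.P_subset (mem_P_of_FP hD))).and hs
  obtain ⟨n, ⟨a, ha, hx⟩, hns⟩ := hn.exists
  have hl := hns a.length ha
  set r := List.replicate (n - (2 * (Nat.bits a.length).length + 1 + a.length)) false with hr
  have hlen : ([Nat.bits a.length].flatMap block ++ (r ++ a)).length = n := by
    simp only [List.flatMap_cons, List.flatMap_nil, List.length_append, List.length_nil,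
      length_block, hr, List.length_replicate]
    omega
  have h1 := hx _ hlen
  have h2 := lastN_eq 0 [Nat.bits a.length] r a (by simp) (by simp)
  rw [h2] at h1
  cases hFa : F ([Nat.bits a.length].flatMap block ++ (r ++ a), a) <;>
    rw [hFa] at h1 <;> simp at h1

private theorem ic_tendsto {g : ℕ → ℕ} (hg : Growth g) (B : ℕ) : ∀ᶠ n in atTop, B ≤ g n :=
  hg.tendsto.eventually_ge_atTop B

theorem not_HypC {CC : Set (List Bool → Bool)} (hC : Closed CC)
    {V : List Bool × List Bool → Bool} (hV : FP V) {g : ℕ → ℕ} (hg : Growth g) (K q : ℕ)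
    (hq : 1 ≤ q) : ¬ HypC CC V g (fun n => n - n / q) K := by
  intro h
  have hβ : ∀ n, n - n / q ≤ n := fun n => Nat.sub_le _ _
  have key : ∀ d, d ≤ K → ∃ c : ℕ, Adv CC (fun n => c * (n * g n ^ (K - d))) := by
    intro d
    induction d with
    | zero =>
      intro _
      refine ⟨6, ic_mono ?_ (HypC.base hV hβ h)⟩
      filter_upwards [ic_tendsto hg 1, eventually_ge_atTop 1] with n hn hn1
      have h1 : 1 ≤ g n ^ K := Nat.one_le_pow _ _ hn
      have h2 : n * 1 ≤ n * g n ^ K := Nat.mul_le_mul_left _ h1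
      simp only [Nat.sub_zero]
      omega
    | succ d ih =>
      intro hd
      obtain ⟨c, hc⟩ := ih (by omega)
      refine ⟨12 * c + 25, ?_⟩
      have hstep := HypC.step hC hV hβ hg h hc
      refine ic_mono ?_ hstep
      filter_upwards [ic_tendsto hg 3] with n hn
      obtain ⟨e, he⟩ : ∃ e, K - d = e + 1 := ⟨K - d - 1, by omega⟩
      have he' : K - (d + 1) = e := by omega
      rw [he, he']
      have hm : n / g n * g n ≤ n := Nat.div_mul_le_self n (g n)
      have h3m : 3 * (n / g n) ≤ n := by nlinarith [Nat.zero_le (n / g n)]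
      have hgm : g (3 * (n / g n)) ≤ g n := hg.mono h3m
      have hpow : g (3 * (n / g n)) ^ (e + 1) ≤ g n ^ (e + 1) := Nat.pow_le_pow_left hgm _
      have hone : 1 ≤ g n ^ (e + 1) := Nat.one_le_pow _ _ (by omega)
      have hone' : 1 ≤ g n ^ e := Nat.one_le_pow _ _ (by omega)
      calc n - n / q + 4 * (c * (3 * (n / g n) * g (3 * (n / g n)) ^ (e + 1))) + 24 * (n / g n)
          ≤ n * g n ^ e + 4 * (c * (3 * (n / g n) * g n ^ (e + 1))) +
              24 * (n / g n) * g n ^ (e + 1) := by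
            refine Nat.add_le_add (Nat.add_le_add ?_ ?_) (Nat.le_mul_of_pos_right _ hone)
            · exact (hβ n).trans (Nat.le_mul_of_pos_right _ hone')
            · gcongr
        _ = n * g n ^ e + (12 * c + 24) * ((n / g n * g n) * g n ^ e) := by ring
        _ ≤ n * g n ^ e + (12 * c + 24) * (n * g n ^ e) := by gcongr
        _ = (12 * c + 25) * (n * g n ^ e) := by ring
  obtain ⟨c, hc⟩ := key K le_rfl
  have hstep := HypC.step hC hV hβ hg h hc
  refine not_Adv' hC ?_ hstep
  filter_upwards [ic_tendsto hg (q * (12 * c + 28) + 1), hg.sq, eventually_ge_atTop 1,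
    sizes hg 0, ic_tendsto hg 3] with n hn hsq hn1 hsz hg3 l hl
  have hg1 : 0 < g n := by omega
  have hm : n / g n * g n ≤ n := Nat.div_mul_le_self n (g n)
  have hgn : g n ≤ n := by nlinarith
  have hm1 : 1 ≤ n / g n := Nat.div_pos hgn hg1
  have h2 : n / g n * (q * (12 * c + 28)) ≤ n :=
    le_trans (Nat.mul_le_mul_left _ (by omega)) hm
  have h3 : n / g n * (12 * c + 28) ≤ n / q := by
    rw [Nat.le_div_iff_mul_le (by omega)]
    calc n / g n * (12 * c + 28) * q = n / g n * (q * (12 * c + 28)) := by ring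
      _ ≤ n := h2
  have h4 : n / q ≤ n := Nat.div_le_self _ _
  simp only [Nat.sub_self, pow_zero, mul_one] at hl
  have e1 : 4 * (c * (3 * (n / g n))) = 12 * (c * (n / g n)) := by ring
  have e2 : n / g n * (12 * c + 28) = 12 * (c * (n / g n)) + 28 * (n / g n) := by ring
  rw [e1] at hl
  rw [e2] at h3
  have hl' : l ≤ n ^ (0 + 1) := by
    rw [zero_add, pow_one]
    omega
  have h5 := (hsz.2.2.2 l [] [] hl' (by simp)).2.1
  omega

/-- **Main theorem.** -/
theorem mainC {CC : Set (List Bool → Bool)} (hC : Closed CC) {g : ℕ → ℕ} (hg : Growth g)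
    (k q : ℕ) (hq : 1 ≤ q) :
    ∃ L ∈ CC, ∀ Q ∈ CC, ∀ R ∈ CC, ∃ᶠ n in atTop, ∀ (z : List Bool) (C : Circuit),
      z.length ≤ n - n / q → C.IsOn (n + z.length) → C.size (n + z.length) ≤ n * g n ^ k →
      C.ComputesWith n z L → ¬ Describes Q R n (n / g n) C.code := by
  obtain ⟨K, hK⟩ := code_bound hg k
  by_contra hcon
  refine not_HypC hC FP_U hg K q hq fun L hL => ?_
  by_contra hH
  refine hcon ⟨L, hL, fun Q hQ R hR => ?_⟩
  by_contra hf
  rw [Filter.not_frequently] at hf
  refine hH ⟨Q, hQ, R, hR, ?_⟩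
  filter_upwards [hf, hK] with n hn hKn
  push Not at hn
  obtain ⟨z, C, hz, h1, h2, h3, h4⟩ := hn
  refine ⟨C.code, z, (length_code C _ _ h1 h2).trans hKn, hz, fun x hx => ?_, h4⟩
  rw [U_code]
  exact h3 x hx

end Pool.Agent.LowComplexity
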