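import Pool.Agent.Lib_MP_22d2c8_uni.Blk
import Pool.Agent.Lib_MP_22d2c8_uni.Num
import Pool.Agent.Lib_MP_22d2c8_uni.Bridge

/-!
# One compression step: definitions
-/

set_option autoImplicit false

namespace Pool.Agent.LowComplexity

open Filter Pool.Agent.PartSep.TM

/-- the code of `(n, i, a, b)` with numbers in binary, padded to the length `M` -/
def enc (M n i : ℕ) (a b : List Bool) : List Bool :=
  [Nat.bits n, Nat.bits i, a, b].flatMap block ++
    List.replicate (M - ([Nat.bits n, Nat.bits i, a, b].flatMap block).length) false

/-- decoding: from the code `enc M n i a b` of `(n, i, a, b)` to the code `word n i a b` -/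
def dcd (r : ℕ) (z : List Bool) : List Bool :=
  word (capN (z.length ^ r) ((blocks z).getD 0 [])) (capN (z.length ^ r) ((blocks z).getD 1 []))
    ((blocks z).getD 2 []) ((blocks z).getD 3 [])

/-- the new evaluation: the second argument consists of the blocks
`a`, `1^t`, `1^M`, `bits l`, `u` (advice for `Q`), `v` (advice for `R`) -/
def nextF (V F : List Bool × List Bool → Bool) (e : ℕ) (p : List Bool × List Bool) : Bool :=
  V (p.1, (List.range (capN (p.1.length ^ e) ((blocks p.2).getD 3 []))).map (fun i =>
    F (enc ((blocks p.2).getD 2 []).length p.1.length i ((blocks p.2).getD 0 [])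
      ((fun b => b ++ [F (enc ((blocks p.2).getD 2 []).length p.1.length i
        ((blocks p.2).getD 0 []) b, (blocks p.2).getD 4 [])])^[((blocks p.2).getD 1 []).length] []),
      (blocks p.2).getD 5 [])))

/-- Every language of the class is, on long inputs `x` of length `n`, of the form `F (x, a)` with
`|a| ≤ s n`, for one polynomial time function `F`. -/
def Adv (CC : Set (List Bool → Bool)) (s : ℕ → ℕ) : Prop :=
  ∃ F : List Bool × List Bool → Bool, FP F ∧ ∀ L ∈ CC, ∀ᶠ n in atTop, ∃ a : List Bool,
    a.length ≤ s n ∧ ∀ x : List Bool, x.length = n → F (x, a) = L x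

/-- The assumption to be refuted: every language of the class has programs (for the evaluation
`V`) of length `n g(n)^K` which are described with `n / g n` bits and queries. -/
def Hyp (CC : Set (List Bool → Bool)) (V : List Bool × List Bool → Bool) (g : ℕ → ℕ) (K : ℕ) :
    Prop :=
  ∀ L ∈ CC, ∃ Q ∈ CC, ∃ R ∈ CC, ∀ᶠ n in atTop, ∃ w : List Bool,
    w.length ≤ n * g n ^ K ∧ (∀ x : List Bool, x.length = n → V (x, w) = L x) ∧
      Describes Q R n (n / g n) w

end Pool.Agent.LowComplexity
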