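import Pool.Agent.Lib_MP_22d2c8_uni.StepDefs

/-!
# One compression step: polynomial time
-/

set_option autoImplicit false

namespace Pool.Agent.LowComplexity

open Pool.Agent.PartSep Pool.Agent.PartSep.TM Pool.Agent.PartSep.TM.Rep

set_option synthInstance.maxSize 2000

theorem FP_word {E : Type} [Rep E] {n i : E → ℕ} {a b : E → List Bool} (hn : FP n)
    (hi : FP i) (ha : FP a) (hb : FP b) : FP (fun x => word (n x) (i x) (a x) (b x)) := by
  unfold word
  exact FP.appendE (FP_replicate hn true) (FP.consE (FP.const false)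
    (FP.appendE (FP_replicate hi true) (FP.consE (FP.const false)
      (FP.appendE (FP_block ha) hb))))

private theorem FP_flat {E : Type} [Rep E] {n i : E → ℕ} {a b : E → List Bool} (hn : FP n)
    (hi : FP i) (ha : FP a) (hb : FP b) :
    FP (fun x => [Nat.bits (n x), Nat.bits (i x), a x, b x].flatMap block) := by
  refine (FP.appendE (FP_block (FP_bits hn)) (FP.appendE (FP_block (FP_bits hi))
    (FP.appendE (FP_block ha) (FP_block hb)))).congr (fun x => ?_)
  simp only [List.flatMap_cons, List.flatMap_nil, List.append_nil]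

theorem FP_enc {E : Type} [Rep E] {M n i : E → ℕ} {a b : E → List Bool} (hM : FP M) (hn : FP n)
    (hi : FP i) (ha : FP a) (hb : FP b) : FP (fun x => enc (M x) (n x) (i x) (a x) (b x)) := by
  unfold enc
  exact FP.appendE (FP_flat hn hi ha hb)
    (FP_replicate (FP.sub hM (FP.lengthE (FP_flat hn hi ha hb))) false)

private theorem FP_lenpow {E : Type} [Rep E] {f : E → List Bool} (hf : FP f) (r : ℕ) :
    FP (fun x => (f x).length ^ r) :=
  (FP.poly (FP.lengthE hf) (Polynomial.X ^ r)).congr (fun x => by simp)

private theorem FP_blk {E : Type} [Rep E] {f : E → List Bool} (hf : FP f) (k : ℕ) :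
    FP (fun x => (blocks (f x)).getD k []) :=
  (FP.getE (FP_blocks hf) (FP.const k) []).congr (fun x => by
    rw [List.getD_eq_getElem?_getD])

/-- PROOF. `FP_word`, `FP.poly` with `Polynomial.X ^ r`, `FP_capN`, `FP_blocks`, `FP.getE`. -/
theorem FP_dcd (r : ℕ) : FP (dcd r) := by
  have hz : FP (fun z : List Bool => z) := FP.id
  exact FP_word (FP_capN (FP_lenpow hz r) (FP_blk hz 0)) (FP_capN (FP_lenpow hz r) (FP_blk hz 1))
    (FP_blk hz 2) (FP_blk hz 3)

/-- PROOF. `FP.mapE`, `FP.range`, `FP.poly` (for the power), `FP.natRec_growth` for the iteration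
(each step appends one bit), `FP_enc`, `FP_blocks`, `FP_capN`, `FP.getE`. -/
theorem FP_nextF {V F : List Bool × List Bool → Bool} (hV : FP V) (hF : FP F) (e : ℕ) :
    FP (nextF V F e) := by
  -- components, as functions of the state `((p, i), b)`
  have k1 : FP (fun z : ((List Bool × List Bool) × ℕ) × List Bool => z.1.1.1) :=
    FP.comp FP.fst (FP.comp FP.fst FP.fst)
  have k2 : FP (fun z : ((List Bool × List Bool) × ℕ) × List Bool => z.1.1.2) :=
    FP.comp FP.snd (FP.comp FP.fst FP.fst)
  have k3 : FP (fun z : ((List Bool × List Bool) × ℕ) × List Bool => z.1.2) :=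
    FP.comp FP.snd FP.fst
  have hstep : FP (fun z : ((List Bool × List Bool) × ℕ) × List Bool =>
      z.2 ++ [F (enc ((blocks z.1.1.2).getD 2 []).length z.1.1.1.length z.1.2
        ((blocks z.1.1.2).getD 0 []) z.2, (blocks z.1.1.2).getD 4 [])]) :=
    FP.appendE FP.snd (FP.consE (FP.comp hF (FP.pair
      (FP_enc (FP.lengthE (FP_blk k2 2)) (FP.lengthE k1) k3 (FP_blk k2 0) FP.snd)
      (FP_blk k2 4))) (FP.const []))
  have j1 : FP (fun y : (List Bool × List Bool) × ℕ => y.1.1) := FP.comp FP.fst FP.fst
  have j2 : FP (fun y : (List Bool × List Bool) × ℕ => y.1.2) := FP.comp FP.snd FP.fst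
  have hit := FP.natRec_growth (E := (List Bool × List Bool) × ℕ) (F := List Bool)
    (n := fun y => ((blocks y.1.2).getD 1 []).length) (FP.lengthE (FP_blk j2 1))
    (init := fun _ => []) (FP.const []) (step := fun z =>
      z.2 ++ [F (enc ((blocks z.1.1.2).getD 2 []).length z.1.1.1.length z.1.2
        ((blocks z.1.1.2).getD 0 []) z.2, (blocks z.1.1.2).getD 4 [])]) hstep 4 (by
      intro x s
      simp only [size_append, size_cons, size_nilE, Polynomial.eval_ofNat]
      have h1 := size_bool (F (enc ((blocks x.1.2).getD 2 []).length x.1.1.length x.2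
        ((blocks x.1.2).getD 0 []) s, (blocks x.1.2).getD 4 []))
      have h2 : Fintype.card (ix Bool) = 1 := rfl
      rw [h2]
      omega)
  have hg : FP (fun y : (List Bool × List Bool) × ℕ =>
      F (enc ((blocks y.1.2).getD 2 []).length y.1.1.length y.2 ((blocks y.1.2).getD 0 [])
        ((fun b => b ++ [F (enc ((blocks y.1.2).getD 2 []).length y.1.1.length y.2
          ((blocks y.1.2).getD 0 []) b, (blocks y.1.2).getD 4 [])])^[((blocks y.1.2).getD 1
            []).length] []),
      (blocks y.1.2).getD 5 [])) :=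
    FP.comp hF (FP.pair (FP_enc (FP.lengthE (FP_blk j2 2)) (FP.lengthE j1) FP.snd (FP_blk j2 0)
      hit) (FP_blk j2 5))
  have hr : FP (fun p : List Bool × List Bool =>
      List.range (capN (p.1.length ^ e) ((blocks p.2).getD 3 []))) :=
    FP.range (FP_capN (FP_lenpow FP.fst e) (FP_blk FP.snd 3))
  have hmap := FP.mapE hr hg
  have hfin := FP.comp hV (FP.pair (FP.fst (E := List Bool) (F := List Bool)) hmap)
  exact hfin.congr (fun p => rfl)

end Pool.Agent.LowComplexity
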